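import Pool.Agent.TH358.GP.Path

set_option autoImplicit false

/-!
# Function fields of retract rational varieties
-/

namespace Pool.Agent.TH358.GP

open scoped TensorProduct
open Polynomial H39Gon H39Gon.C4 H39Gon.TC2

/-- `F` is the function field of a retract rational variety over `k`: `F` is the field of fractions
of a `k`-subalgebra `R` for which the identity of `R` factors, as a homomorphism of `k`-algebras,
through some `k[x_1, ..., x_N][1/w]`, `w ≠ 0`. -/
def RetractRational (k F : Type) [Field k] [Field F] [Algebra k F] : Prop :=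
  ∃ R : Subalgebra k F, (∀ f : F, ∃ a b : R, (b : F) ≠ 0 ∧ f = (a : F) / (b : F)) ∧
    ∃ (N : ℕ) (w : MvPolynomial (Fin N) k) (φ : R →ₐ[k] Localization.Away w)
      (ψ : Localization.Away w →ₐ[k] R), w ≠ 0 ∧ ∀ r : R, ψ (φ r) = r

theorem pow_of_finite {k : Type} [Field k] (p : ℕ) [Fact p.Prime] [CharP k p]
    (h : ∀ x : k, ∃ K : Subfield k, Finite K ∧ x ∈ K) (x : k) :
    ∃ r : ℕ, 1 ≤ r ∧ x ^ p ^ r = x := by
  classical
  obtain ⟨L, hL, hx⟩ := h x
  have := Fintype.ofFinite L
  have hc' : CharP L p := RingHom.charP L.subtype L.subtype.injective p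
  obtain ⟨r, -, hr⟩ := FiniteField.card L p
  have h1 := FiniteField.pow_card (⟨x, hx⟩ : L)
  rw [hr] at h1
  exact ⟨r, r.pos, congrArg (fun y : L => (y : k)) h1⟩

section

variable {k F : Type} [Field k] [Field F] [Algebra k F] {N : ℕ}

/-- the line through a `k`-point `x0` and the `F`-point `y`, on polynomials -/
noncomputable def lineP (x0 : Fin N → k) (y : Fin N → F) : MvPolynomial (Fin N) k →+* F[X] :=
  MvPolynomial.eval₂Hom ((Polynomial.C : F →+* F[X]).comp (algebraMap k F))
    (fun i => Polynomial.C (algebraMap k F (x0 i)) +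
      Polynomial.X * Polynomial.C (y i - algebraMap k F (x0 i)))

theorem lineP_one (x0 : Fin N → k) (y : Fin N → F) (P : MvPolynomial (Fin N) k) :
    (lineP x0 y P).eval 1 = MvPolynomial.eval₂ (algebraMap k F) y P := by
  have h : ((Polynomial.evalRingHom (1 : F)).comp (lineP x0 y)) =
      MvPolynomial.eval₂Hom (algebraMap k F) y := by
    apply MvPolynomial.ringHom_ext
    · intro c
      simp [lineP]
    · intro i
      simp [lineP]
  exact congrArg (fun g => g P) h

theorem lineP_zero (x0 : Fin N → k) (y : Fin N → F) (P : MvPolynomial (Fin N) k) :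
    (lineP x0 y P).eval 0 = algebraMap k F (MvPolynomial.eval x0 P) := by
  have h : ((Polynomial.evalRingHom (0 : F)).comp (lineP x0 y)) =
      (algebraMap k F).comp (MvPolynomial.eval x0) := by
    apply MvPolynomial.ringHom_ext
    · intro c
      simp [lineP]
    · intro i
      simp [lineP]
  exact congrArg (fun g => g P) h

end

theorem pathProp_of_retract {k F : Type} [Field k] [Field F] [Algebra k F] [Infinite k] (p : ℕ)
    [Fact p.Prime] [CharP k p] (h : ∀ x : k, ∃ K : Subfield k, Finite K ∧ x ∈ K)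
    (hR : RetractRational k F) : PathProp F p := by
  classical
  obtain ⟨R, hfrac, N, w, φ, ψ, hw, hψφ⟩ := hR
  intro S
  -- elements of `R` as quotients
  have hφ : ∀ r : R, ∃ (P : MvPolynomial (Fin N) k) (m : ℕ),
      φ r * algebraMap _ _ (w ^ m) = algebraMap _ (Localization.Away w) P := by
    intro r
    obtain ⟨⟨P, ⟨_, m, rfl⟩⟩, hP⟩ := IsLocalization.surj (Submonoid.powers w) (φ r)
    exact ⟨P, m, hP⟩
  choose P m hP using hφ
  have hAinj : Function.Injective (algebraMap (MvPolynomial (Fin N) k) (Localization.Away w)) :=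
    IsLocalization.injective _ (powers_le_nonZeroDivisors_of_noZeroDivisors hw)
  -- the `F`-point
  let y : Fin N → F := fun i =>
    (ψ (algebraMap (MvPolynomial (Fin N) k) (Localization.Away w) (MvPolynomial.X i)) : F)
  have hy : ∀ Q : MvPolynomial (Fin N) k, MvPolynomial.eval₂ (algebraMap k F) y Q =
      (ψ (algebraMap (MvPolynomial (Fin N) k) (Localization.Away w) Q) : F) := by
    intro Q
    have h1 : MvPolynomial.eval₂Hom (algebraMap k F) y =
        (R.val.toRingHom.comp ψ.toRingHom).comp
          (algebraMap (MvPolynomial (Fin N) k) (Localization.Away w)) := by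
      apply MvPolynomial.ringHom_ext
      · intro c
        simp only [MvPolynomial.eval₂Hom_C, RingHom.comp_apply, AlgHom.toRingHom_eq_coe,
          RingHom.coe_coe]
        have h2 : algebraMap (MvPolynomial (Fin N) k) (Localization.Away w) (MvPolynomial.C c) =
            algebraMap k (Localization.Away w) c := by
          rw [IsScalarTower.algebraMap_apply k (MvPolynomial (Fin N) k) (Localization.Away w)]
          rfl
        rw [h2, AlgHom.commutes, AlgHom.commutes]
      · intro i
        simp [y]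
    exact congrArg (fun g => g Q) h1
  have hyw : MvPolynomial.eval₂ (algebraMap k F) y w ≠ 0 := by
    rw [hy]
    have h1 : IsUnit (algebraMap (MvPolynomial (Fin N) k) (Localization.Away w) w) :=
      IsLocalization.Away.algebraMap_isUnit w
    have h2 := (h1.map ψ).map R.val
    exact h2.ne_zero
  -- numerators and denominators
  choose a b hb hab using hfrac
  have hPb : ∀ f : F, P (b f) ≠ 0 := by
    intro f h0
    have h1 := hP (b f)
    rw [h0, map_zero] at h1
    have h2 : IsUnit (algebraMap (MvPolynomial (Fin N) k) (Localization.Away w) (w ^ m (b f))) := by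
      rw [map_pow]
      exact (IsLocalization.Away.algebraMap_isUnit w).pow _
    have h3 : φ (b f) = 0 := by
      rw [h2.mul_left_eq_zero] at h1
      exact h1
    have h4 := hψφ (b f)
    rw [h3, map_zero] at h4
    exact hb f (by rw [← h4]; rfl)
  obtain ⟨x0, hx0⟩ : ∃ x0 : Fin N → k,
      MvPolynomial.eval x0 (w * ∏ f ∈ S, P (b f)) ≠ 0 := by
    by_contra hcon
    push Not at hcon
    have h1 : w * ∏ f ∈ S, P (b f) = 0 := MvPolynomial.funext (fun x => by rw [hcon, map_zero])
    rcases mul_eq_zero.1 h1 with h2 | h2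
    · exact hw h2
    · obtain ⟨f, -, hf⟩ := Finset.prod_eq_zero_iff.1 h2
      exact hPb f hf
  rw [map_mul, map_prod] at hx0
  have hx0w : MvPolynomial.eval x0 w ≠ 0 := left_ne_zero_of_mul hx0
  have hx0b : ∀ f ∈ S, MvPolynomial.eval x0 (P (b f)) ≠ 0 :=
    Finset.prod_ne_zero_iff.1 (right_ne_zero_of_mul hx0)
  -- the homomorphism on `k[x][1/w]`
  have hA : Function.Injective (algebraMap F[X] (RatFunc F)) := IsFractionRing.injective _ _
  have hγw0 : lineP x0 y w ≠ 0 := by
    intro h0
    apply hyw
    rw [← lineP_one x0 y, h0, eval_zero]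
  let g : MvPolynomial (Fin N) k →+* RatFunc F := (algebraMap F[X] (RatFunc F)).comp (lineP x0 y)
  have hgw : g w ≠ 0 := (map_ne_zero_iff _ hA).2 hγw0
  let γ : Localization.Away w →+* RatFunc F := IsLocalization.Away.lift w (g := g)
    (isUnit_iff_ne_zero.2 hgw)
  have hγ : ∀ Q, γ (algebraMap _ _ Q) = g Q := fun Q => IsLocalization.Away.lift_eq w _ Q
  let σR : R →+* RatFunc F := γ.comp φ.toRingHom
  have hσR : ∀ r : R, σR r = algebraMap F[X] (RatFunc F) (lineP x0 y (P r)) /
      algebraMap F[X] (RatFunc F) (lineP x0 y (w ^ m r)) := by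
    intro r
    have h1 := congrArg γ (hP r)
    rw [map_mul, hγ, hγ] at h1
    have h2 : algebraMap F[X] (RatFunc F) (lineP x0 y (w ^ m r)) ≠ 0 := by
      rw [map_pow, map_pow]
      exact pow_ne_zero _ hgw
    rw [eq_div_iff h2]
    exact h1
  have hσ1 : ∀ r : R, spec F 1 (some (σR r)) = some (r : F) := by
    intro r
    rw [hσR, spec_div 1 _ _ (by
      rw [lineP_one, MvPolynomial.eval₂_pow]
      exact pow_ne_zero _ hyw), lineP_one, lineP_one, MvPolynomial.eval₂_pow]
    congr 1
    rw [div_eq_iff (pow_ne_zero _ hyw)]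
    have h1 := congrArg (fun z => (ψ z : F)) (hP r)
    simp only [map_mul, hψφ] at h1
    rw [← hy] at h1
    rw [← h1, ← MvPolynomial.eval₂_pow, hy]
    rfl
  have hσ0 : ∀ r : R, spec F 0 (some (σR r)) =
      some (algebraMap k F (MvPolynomial.eval x0 (P r) / (MvPolynomial.eval x0 w) ^ m r)) := by
    intro r
    rw [hσR, spec_div 0 _ _ (by
      rw [lineP_zero, map_pow, map_pow]
      exact pow_ne_zero _ ((map_ne_zero_iff _ (algebraMap k F).injective).2 hx0w)),
      lineP_zero, lineP_zero, map_div₀, map_pow]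
  have hσinj : Function.Injective σR := by
    intro r s hrs
    have h1 := hσ1 r
    rw [hrs, hσ1] at h1
    exact (Subtype.ext (Option.some.inj h1)).symm
  have hFR : IsFractionRing R F := by
    refine IsFractionRing.of_field R F (fun z => ⟨a z, b z, ?_⟩)
    exact (hab z)
  let σ : F →+* RatFunc F := IsFractionRing.lift hσinj
  have hσ : ∀ r : R, σ (r : F) = σR r := fun r => IsFractionRing.lift_algebraMap hσinj r
  refine ⟨σ, fun f hf => ?_⟩
  have hf1 : σ f = σR (a f) / σR (b f) := by
    conv_lhs => rw [hab f]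
    rw [map_div₀, hσ, hσ]
  constructor
  · rw [hf1, spec_some_div 1 _ _ _ _ (hσ1 (a f)) (hσ1 (b f)) (hb f), ← hab f]
  · refine Or.inr ?_
    have hb0 : algebraMap k F (MvPolynomial.eval x0 (P (b f)) /
        (MvPolynomial.eval x0 w) ^ m (b f)) ≠ 0 :=
      (map_ne_zero_iff _ (algebraMap k F).injective).2
        (div_ne_zero (hx0b f hf) (pow_ne_zero _ hx0w))
    refine ⟨algebraMap k F (MvPolynomial.eval x0 (P (a f)) / (MvPolynomial.eval x0 w) ^ m (a f) /
        (MvPolynomial.eval x0 (P (b f)) / (MvPolynomial.eval x0 w) ^ m (b f))), ?_, ?_⟩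
    · rw [hf1, spec_some_div 0 _ _ _ _ (hσ0 (a f)) (hσ0 (b f)) hb0, ← map_div₀]
    · obtain ⟨r, hr, hc⟩ := pow_of_finite p h (MvPolynomial.eval x0 (P (a f)) /
        (MvPolynomial.eval x0 w) ^ m (a f) /
        (MvPolynomial.eval x0 (P (b f)) / (MvPolynomial.eval x0 w) ^ m (b f)))
      refine ⟨r, hr, ?_⟩
      rw [← map_pow, hc]

theorem evS_retract {k F : Type} [Field k] [Field F] [Algebra k F] [Infinite k]
    (h : ∀ x : k, ∃ K : Subfield k, Finite K ∧ x ∈ K) (hR : RetractRational k F) : EvS F := by
  obtain ⟨K, hK, -⟩ := h 1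
  obtain ⟨p, hc⟩ := CharP.exists K
  have := Fintype.ofFinite K
  obtain ⟨r0, hp', -⟩ := FiniteField.card K p
  have hp : Fact p.Prime := ⟨hp'⟩
  have hck : CharP k p := charP_of_injective_ringHom K.subtype.injective p
  have hcF : CharP F p := charP_of_injective_ringHom (algebraMap k F).injective p
  exact evS_path p (pathProp_of_retract p h hR)

end Pool.Agent.TH358.GP
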