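import Pool.Agent.TH358.GP.EvI
import Pool.Agent.TH358.GP.Ret

set_option autoImplicit false

/-!
# The class of fields
-/

namespace Pool.Agent.TH358.GP

open H39Gon H39Gon.C4 H39Gon.TC2

/-- The smallest class of fields which contains all fields that are unions of finite fields and all
function fields of retract rational varieties over infinite unions `k` of finite fields, with a
field `K` the field `K(x)` of rational functions and all fields `K'` of characteristic `p` with
`K'^p ⊆ K ⊆ K'`, and with a field all isomorphic fields. -/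
inductive RationalClass : (F : Type) → Field F → Prop
  | base (F : Type) (i : Field F) (h : ∀ x : F, ∃ K : Subfield F, Finite K ∧ x ∈ K) :
      RationalClass F i
  | retract (k F : Type) (ik : Field k) (i : Field F) (ia : Algebra k F) (hk : Infinite k)
      (h : ∀ x : k, ∃ K : Subfield k, Finite K ∧ x ∈ K) (hR : RetractRational k F) :
      RationalClass F i
  | ratFunc (F : Type) (i : Field F) (h : RationalClass F i) :
      RationalClass (RatFunc F) inferInstance
  | insep (F F' : Type) (i : Field F) (i' : Field F') (p : ℕ) (hp : p.Prime) (hc : CharP F' p)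
      (φ : F →+* F') (hφ : ∀ y : F', ∃ x : F, φ x = y ^ p) (h : RationalClass F i) :
      RationalClass F' i'
  | iso (F F' : Type) (i : Field F) (i' : Field F') (e : F ≃+* F') (h : RationalClass F i) :
      RationalClass F' i'

theorem evS_class (F : Type) (i : Field F) (h : RationalClass F i) : EvS F := by
  induction h with
  | base F i h => exact evS_base h
  | retract k F ik i ia hk h hR => exact evS_retract h hR
  | ratFunc F i _ ih => exact evS_ratFunc F ih
  | insep F F' i i' p hp hc φ hφ _ ih =>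
    have : Fact p.Prime := ⟨hp⟩
    exact evS_insep p φ hφ ih
  | iso F F' i i' e _ ih => exact evS_iso e ih

/-! ### the definitions used in the statement -/

/-- `{x} ↦ Ψ(1 - x, x; x, ..., x)` -/
noncomputable def form {F : Type} [Field F] {m : ℕ}
    (Ψ : GonP.UV F →ₗ[ℤ] GonP.UV F →ₗ[ℤ] MultilinearMap ℤ (fun _ : Fin m => GonP.UV F) ℚ) : GonP.P1 F → ℚ
  | none => 0
  | some x => Ψ (GonP.cl (1 - x)) (GonP.cl x) (fun _ => GonP.cl x)

/-- The differentials of all the complexes `Γ(F,n) ⊗ ℚ`, `n ≥ 2`, exist and are unique, and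
`H^1(Γ(F,n) ⊗ ℚ) = 0` for all `n ≥ 2`. -/
def H1Zero (F : Type) [Field F] : Prop :=
  ∃ D : GonP.Differentials F, (∀ D' : GonP.Differentials F, D' = D) ∧
    (∀ m, Function.Injective (D.d m 0)) ∧ Function.Injective (D.e 0)

/-- For all `n = m + 2 ≥ 2` and `α = ∑ n_i {x_i}`: the class of `α` in `B_n(F)` has finite order
if and only if `∑ n_i Ψ(1 - x_i, x_i; x_i, ..., x_i) = 0` for all multilinear maps
`Ψ : (F^*)^n → ℚ` which are alternating in the first two variables. -/
def TorsionCriterion (F : Type) [Field F] : Prop :=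
  ∀ (m : ℕ) (α : GonP.ZP F), (∃ N : ℕ, 0 < N ∧ N • GonP.toQuo (GonP.R (m + 2) F) α = 0) ↔
    ∀ Ψ : GonP.UV F →ₗ[ℤ] GonP.UV F →ₗ[ℤ] MultilinearMap ℤ (fun _ : Fin m => GonP.UV F) ℚ,
      (∀ a, Ψ a a = 0) → GonP.lift (form Ψ) α = 0

/-- the value `α(0) ∈ ℤ[P^1_K]` of `α = α(x) ∈ ℤ[P^1_{K(x)}]`, as an element of
`ℤ[P^1_{K(x)}]` -/
noncomputable def atZero {K : Type} [Field K] (α : GonP.ZP (RatFunc K)) : GonP.ZP (RatFunc K) :=
  (GonP.specZ (0 : K) α).mapDomain (Option.map (RatFunc.C : K →+* RatFunc K))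

/-- For `n = 2` and `n = m + 3 ≥ 3`: if `δ_n α = 0` for `α = α(x) ∈ ℤ[P^1_{K(x)}]`, then `α(x)` and
`α(0)` have the same class in `B_n(K(x))`. -/
def Rigid (K : Type) [Field K] : Prop :=
  ∀ α : GonP.ZP (RatFunc K),
    (α ∈ GonP.A2 (RatFunc K) →
      GonP.toQuo (GonP.R 2 (RatFunc K)) α = GonP.toQuo (GonP.R 2 (RatFunc K)) (atZero α)) ∧
    ∀ m : ℕ, α ∈ GonP.AS (RatFunc K) (GonP.R (m + 2) (RatFunc K)) →
      GonP.toQuo (GonP.R (m + 3) (RatFunc K)) α =
        GonP.toQuo (GonP.R (m + 3) (RatFunc K)) (atZero α)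

theorem main_class' (F : Type) [i : Field F] (h : RationalClass F i) :
    H1Zero F ∧ TorsionCriterion F := by
  obtain ⟨h1, h2⟩ := main_class F (evS_class F i h)
  refine ⟨h1, fun m α => (h2 m α).trans ⟨fun h3 Ψ hΨ => ?_, fun h3 Ψ hΨ => ?_⟩⟩
  · have h4 := h3 Ψ hΨ
    rw [evG_eq] at h4
    rw [← h4, GonP.lift_eq]
    rfl
  · have h4 := h3 Ψ hΨ
    rw [GonP.lift_eq] at h4
    rw [evG_eq]
    exact h4

theorem rigid (K : Type) [Field K] : Rigid K := fun α => ⟨rigid2 K α, fun m => rigidS K m α⟩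

end Pool.Agent.TH358.GP
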