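import Pool.Agent.TH358.GP.Cx

set_option autoImplicit false

/-!
# Unions of finite fields; the maps of the groups `B_n`
-/

namespace Pool.Agent.TH358.GP

open GonP

variable {F F' : Type} [Field F] [Field F'] (p : ℕ) [hp : Fact p.Prime] [CharP F p] [CharP F' p]

theorem exists_exp (x : F) (h : ∃ K : Subfield F, Finite K ∧ x ∈ K) :
    ∃ r : ℕ, 1 ≤ r ∧ x ^ p ^ r = x := by
  classical
  obtain ⟨K, hK, hx⟩ := h
  have := Fintype.ofFinite K
  have hc : CharP K p := RingHom.charP K.subtype K.subtype.injective p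
  obtain ⟨r, -, hr⟩ := FiniteField.card K p
  refine ⟨r, r.pos, ?_⟩
  have h1 := FiniteField.pow_card (⟨x, hx⟩ : K)
  rw [hr] at h1
  exact congrArg (fun y : K => (y : F)) h1

theorem gen_kill' (hF : ∀ x : F, ∃ K : Subfield F, Finite K ∧ x ∈ K) (n : ℕ) (hn : 1 ≤ n)
    (x : P1 F) : ∃ N : ℕ, 0 < N ∧ N.Coprime p ∧ N • toQuo (R n F) (gen x) = 0 := by
  have hmem : ∀ r : ZP F, r ∈ R n F → toQuo (R n F) r = 0 := fun r hr => by
    have := toQuo_eq (R n F) r 0 (by rwa [sub_zero])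
    rw [this, toQuo_zero]
  cases x with
  | none =>
    refine ⟨1, one_pos, Nat.coprime_one_left p, ?_⟩
    rw [one_smul]
    apply hmem
    rcases Nat.lt_or_ge n 2 with h | h
    · have h1 : n = 1 := by omega
      subst h1
      rw [R_one]
      exact AddSubgroup.subset_closure (Or.inl (Or.inr rfl))
    · obtain ⟨m, rfl⟩ := Nat.exists_eq_add_of_le' h
      unfold R
      rw [if_neg (by omega)]
      cases m with
      | zero => exact AddSubgroup.subset_closure (Or.inl (Or.inr rfl))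
      | succ m => exact AddSubgroup.subset_closure (Or.inl (Or.inr rfl))
  | some x =>
    obtain ⟨r, hr, hx⟩ := exists_exp p x (hF x)
    have h1 : 1 ≤ r * n := Nat.mul_pos hr hn
    have h2 : 1 < p ^ (r * n) := Nat.one_lt_pow (by omega) hp.out.one_lt
    refine ⟨p ^ (r * n) - 1, by omega, ?_, gen_kill p x r hr hx n hn⟩
    have h3 : Nat.Coprime (p ^ (r * n) - 1) (p ^ (r * n)) := by
      have := Nat.coprime_self_sub_left (m := 1) (n := p ^ (r * n)) h2.le
      rw [this]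
      exact Nat.coprime_one_left _
    exact Nat.Coprime.coprime_dvd_right (dvd_pow_self p (by omega)) h3

theorem b_kill (hF : ∀ x : F, ∃ K : Subfield F, Finite K ∧ x ∈ K) (n : ℕ) (hn : 1 ≤ n)
    (b : B n F) : ∃ N : ℕ, 0 < N ∧ N.Coprime p ∧ N • b = 0 := by
  obtain ⟨a, rfl⟩ := b_mk b
  induction a using Finsupp.induction_linear with
  | zero => exact ⟨1, one_pos, Nat.coprime_one_left p, by rw [toQuo_zero, smul_zero]⟩
  | add a c ha hc =>
    obtain ⟨N, hN, hN', hNa⟩ := ha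
    obtain ⟨M, hM, hM', hMc⟩ := hc
    refine ⟨N * M, Nat.mul_pos hN hM, Nat.Coprime.mul_left hN' hM', ?_⟩
    rw [toQuo_add, smul_add, mul_comm N M, mul_smul, hNa, smul_zero, mul_comm M N, mul_smul, hMc,
      smul_zero, add_zero]
  | single x c =>
    obtain ⟨N, hN, hN', hNx⟩ := gen_kill' p hF n hn x
    refine ⟨N, hN, hN', ?_⟩
    have h1 : (Finsupp.single x c : ZP F) = c • gen x := by
      unfold gen
      rw [Finsupp.smul_single]
      simp
    rw [h1, toQuo_zsmul, smul_comm, hNx, smul_zero]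

theorem toRat_kill {A : Type} [AddCommGroup A] (a : A) (N : ℕ) (hN : 0 < N) (h : N • a = 0) :
    toRat a = 0 := by
  have h1 : (N : ℚ) • toRat a = 0 := by
    have h2 : (N : ℚ) • toRat a = toRat (N • a) := by
      unfold toRat
      rw [← natCast_zsmul]
      have h3 : (1 : ℚ) ⊗ₜ[ℤ] ((N : ℤ) • a) = ((N : ℤ) : ℚ) • ((1 : ℚ) ⊗ₜ[ℤ] a) :=
        one_zsmul' (N : ℤ) a
      rw [Int.cast_natCast] at h3
      exact h3.symm
    rw [h2, h]
    exact TensorProduct.tmul_zero A (1 : ℚ)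
  have h2 : (N : ℚ) ≠ 0 := Nat.cast_ne_zero.2 hN.ne'
  exact (smul_eq_zero.1 h1).resolve_left h2

theorem tq_kill (p : ℕ) [hp : Fact p.Prime] [CharP F p] (hF : ∀ x : F, ∃ K : Subfield F, Finite K ∧ x ∈ K) (m j : ℕ)
    (u : TQ F (m + 2) j) : u = 0 := by
  have h := text_P m j (fun u : TQ F (m + 2) j => u) (fun _ => (0 : TQ F (m + 2) j))
    (isLin LinearMap.id) (isLin (0 : TQ F (m + 2) j →ₗ[ℚ] TQ F (m + 2) j)) (fun x y => ?_)
  · exact congrFun h u
  · beta_reduce
    obtain ⟨N, hN, -, hNx⟩ := gen_kill' p hF (m + 2) (by omega) x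
    unfold tq
    refine toRat_kill _ N hN ?_
    have h2 : N • tm (toQuo (R (m + 2) F) (gen x)) (wedge y) =
        tm (N • toQuo (R (m + 2) F) (gen x)) (wedge y) := by
      unfold tm
      rw [← natCast_zsmul, ← natCast_zsmul]
      exact TensorProduct.smul_tmul' _ _ _
    rw [h2, hNx]
    exact TensorProduct.zero_tmul _ _

theorem lq_kill (p : ℕ) [hp : Fact p.Prime] [CharP F p] (hF : ∀ x : F, ∃ K : Subfield F, Finite K ∧ x ∈ K) (j : ℕ)
    (u : LQ F (j + 1)) : u = 0 := by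
  have h := lext_P (j + 1) (fun u : LQ F (j + 1) => u) (fun _ => (0 : LQ F (j + 1)))
    (isLin LinearMap.id) (isLin (0 : LQ F (j + 1) →ₗ[ℚ] LQ F (j + 1))) (fun y => ?_)
  · exact congrFun h u
  · beta_reduce
    obtain ⟨r, hr, hx⟩ := exists_exp p ((y 0).toMul : F) (hF _)
    have h2 : 1 < p ^ r := Nat.one_lt_pow (by omega) hp.out.one_lt
    unfold lq
    refine toRat_kill _ (p ^ r - 1) (by omega) ?_
    have h3 : (p ^ r - 1) • y 0 = 0 := by
      have h4 : (p ^ r) • y 0 = y 0 := by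
        apply Additive.toMul.injective
        rw [toMul_nsmul]
        ext
        rw [Units.val_pow_eq_pow_val]
        exact hx
      have h5 : (p ^ r - 1) • y 0 + y 0 = p ^ r • y 0 := by
        nth_rewrite 2 [← one_smul ℕ (y 0)]
        rw [← add_smul, Nat.sub_add_cancel h2.le]
      rw [h4] at h5
      exact add_eq_right.1 h5
    apply (eL (UV F) (j + 1)).injective
    rw [map_nsmul, eL_wedge, map_zero]
    have h6 := (exteriorPower.ιMulti ℤ (M := UV F) (j + 1)).toMultilinearMap.map_update_smul y 0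
      ((p ^ r - 1 : ℕ) : ℤ) (y 0)
    rw [Function.update_eq_self] at h6
    rw [← natCast_zsmul]
    refine h6.symm.trans ?_
    rw [natCast_zsmul, h3]
    exact (exteriorPower.ιMulti ℤ (M := UV F) (j + 1)).toMultilinearMap.map_coord_zero 0
      (Function.update_self _ _ _)

/-- The homomorphism `B_n(F) → B_n(F')` for `F'^{p^k} ⊆ F`. -/
theorem inducedB (φ : F →+* F') (k : ℕ) (hk : ∀ y : F', ∃ x : F, φ x = y ^ p ^ k) (n : ℕ)
    (hn : 1 ≤ n) : ∃ T : B n F → B n F', InducedB φ n T ∧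
      (∀ b c, T b = T c → p ^ (k * n) • b = p ^ (k * n) • c) ∧ ∀ c, ∃ b, T b = p ^ (k * n) • c := by
  obtain ⟨ρ, hρ1, hρ2⟩ := exists_back p φ k hk
  refine ⟨bG φ n hn, ⟨map_add _, bG_gen φ n hn⟩, fun b c h => ?_, fun c => ⟨bG ρ n hn c, ?_⟩⟩
  · rw [← bG_iter p n hn k b, ← bG_iter p n hn k c, ← hρ2, bG_comp, bG_comp, h]
  · rw [← bG_comp, hρ1, bG_iter p n hn k c]

theorem inducedB_unique (φ : F →+* F') (n : ℕ) (T T' : B n F → B n F') (h : InducedB φ n T)
    (h' : InducedB φ n T') : T = T' := by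
  funext b
  exact b_ext' (AddMonoidHom.mk' T h.1) (AddMonoidHom.mk' T' h'.1)
    (fun x => (h.2 x).trans (h'.2 x).symm) b

theorem frob_B (n : ℕ) (hn : 1 ≤ n) (T : B n F → B n F) (h : InducedB (frobenius F p) n T)
    (b : B n F) : T b = p ^ n • b := by
  rw [inducedB_unique _ n T (bG (frobenius F p) n hn) h ⟨map_add _, bG_gen _ n hn⟩]
  exact bG_frob p n hn b

end Pool.Agent.TH358.GP
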