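import Pool.Agent.TH358.GP.Main

set_option autoImplicit false

/-!
# The complexes `Γ(F,n) ⊗ ℚ` of fields of characteristic `p`
-/

namespace Pool.Agent.TH358.GP

open GonP
open H39Gon (rmM rmM_single rmU R_map)

variable {F F' F'' : Type} [Field F] [Field F'] [Field F'']

theorem onUnits_eq (φ : F →+* F') (y : UV F) : onUnits φ y = rmU φ y := rfl

theorem onUnits_cl (φ : F →+* F') (x : F) : onUnits φ (cl x) = cl (φ x) := H39Gon.rmU_cl φ x

/-- the induced map of the terms of the complexes -/
theorem exists_T (φ : F →+* F') (m j : ℕ) : ∃ T : TQ F (m + 2) j →ₗ[ℚ] TQ F' (m + 2) j,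
    ∀ (x : P1 F) (y : Fin j → UV F),
      T (tq (m + 2) j x y) = tq (m + 2) j (x.map φ) (fun i => onUnits φ (y i)) := by
  obtain ⟨T, hT⟩ := exists_tm φ m j
  refine ⟨(eT F' m j).symm.toLinearMap ∘ₗ T ∘ₗ (eT F m j).toLinearMap, fun x y => ?_⟩
  rw [LinearMap.comp_apply, LinearMap.comp_apply, LinearEquiv.coe_coe, LinearEquiv.coe_coe, eT_tq,
    hT, eT_symm_tq]
  rfl

/-- the induced map of the last terms -/
theorem exists_S (φ : F →+* F') (j : ℕ) : ∃ S : LQ F j →ₗ[ℚ] LQ F' j,
    ∀ y : Fin j → UV F, S (lq j y) = lq j (fun i => onUnits φ (y i)) := by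
  obtain ⟨T, hT⟩ := exists_lm φ j
  refine ⟨(eLQ F' j).symm.toLinearMap ∘ₗ T ∘ₗ (eLQ F j).toLinearMap, fun y => ?_⟩
  rw [LinearMap.comp_apply, LinearMap.comp_apply, LinearEquiv.coe_coe, LinearEquiv.coe_coe, eLQ_lq,
    hT, eLQ_symm_lq]
  rfl

theorem lext_P {N : Type} [AddCommGroup N] [Module ℚ N] (j : ℕ) (f g : LQ F j → N)
    (hf : IsLinearMap ℚ f) (hg : IsLinearMap ℚ g)
    (h : ∀ y, f (lq j y) = g (lq j y)) : f = g := by
  have := H39Gon.E2.lext ((hf.mk' f) ∘ₗ (eLQ F j).symm.toLinearMap)
    ((hg.mk' g) ∘ₗ (eLQ F j).symm.toLinearMap) (by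
      intro y
      simp only [LinearMap.comp_apply, LinearEquiv.coe_coe, IsLinearMap.mk'_apply]
      rw [eLQ_symm_lq]
      exact h y)
  funext z
  have h2 := LinearMap.congr_fun this (eLQ F j z)
  simpa using h2

theorem isLin {V W : Type} [AddCommGroup V] [AddCommGroup W] [Module ℚ V] [Module ℚ W]
    (f : V →ₗ[ℚ] W) : IsLinearMap ℚ f := ⟨map_add f, map_smul f⟩

theorem isSm {V : Type} [AddCommGroup V] [Module ℚ V] (c : ℚ) :
    IsLinearMap ℚ (fun u : V => c • u) := ⟨smul_add c, fun d x => smul_comm c d x⟩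

section frob

variable (p : ℕ) [hp : Fact p.Prime] [CharP F p] [CharP F' p]

theorem tqP_iter (m j k : ℕ) (x : P1 F) (y : Fin j → UV F) :
    tq (m + 2) j (x.map (iterateFrobenius F p k)) (fun i => onUnits (iterateFrobenius F p k) (y i)) =
      (((p : ℚ) ^ (m + 2 + j)) ^ k) • tq (m + 2) j x y := by
  apply (eT F m j).injective
  rw [map_smul, eT_tq, eT_tq]
  exact tq_iter p m j k x y

theorem lqP_iter (j k : ℕ) (y : Fin j → UV F) :
    lq j (fun i => onUnits (iterateFrobenius F p k) (y i)) = (((p : ℚ) ^ j) ^ k) • lq j y := by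
  apply (eLQ F j).injective
  rw [map_smul, eLQ_lq, eLQ_lq]
  exact lq_iter p j k y

theorem frob_T (m j : ℕ) (T : TQ F (m + 2) j → TQ F (m + 2) j)
    (hT : Induced (frobenius F p) (m + 2) j T) (u : TQ F (m + 2) j) :
    T u = (p : ℚ) ^ (m + 2 + j) • u := by
  have h : T = fun u => (p : ℚ) ^ (m + 2 + j) • u := by
    refine text_P m j _ _ hT.1 (isSm _) (fun x y => ?_)
    rw [hT.2]
    have h1 := tqP_iter p m j 1 x y
    rw [pow_one, iterateFrobenius_one] at h1
    exact h1
  rw [h]

theorem frob_S (j : ℕ) (T : LQ F j → LQ F j) (hT : InducedL (frobenius F p) j T) (u : LQ F j) :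
    T u = (p : ℚ) ^ j • u := by
  have h : T = fun u => (p : ℚ) ^ j • u := by
    refine lext_P j _ _ hT.1 (isSm _) (fun y => ?_)
    rw [hT.2]
    have h1 := lqP_iter p j 1 y
    rw [pow_one, iterateFrobenius_one] at h1
    exact h1
  rw [h]

/-! ### purely inseparable extensions -/

/-- the map back -/
theorem exists_back (φ : F →+* F') (k : ℕ) (hk : ∀ y : F', ∃ x : F, φ x = y ^ p ^ k) :
    ∃ ρ : F' →+* F, φ.comp ρ = iterateFrobenius F' p k ∧ ρ.comp φ = iterateFrobenius F p k := by
  choose r hr using hk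
  have hinj := φ.injective
  refine ⟨{ toFun := r, map_one' := ?_, map_mul' := ?_, map_zero' := ?_, map_add' := ?_ }, ?_, ?_⟩
  · apply hinj; rw [hr, map_one, one_pow]
  · intro a b; apply hinj; rw [map_mul, hr, hr, hr, mul_pow]
  · apply hinj; rw [hr, map_zero, zero_pow (pow_ne_zero _ hp.out.ne_zero)]
  · intro a b; apply hinj; rw [map_add, hr, hr, hr, add_pow_char_pow]
  · ext y
    rw [iterateFrobenius_def]
    exact hr y
  · ext x
    apply hinj
    rw [iterateFrobenius_def, map_pow]
    exact hr (φ x)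

theorem map_comp_apply (φ : F →+* F') (ρ : F' →+* F'') (x : P1 F) :
    (x.map φ).map ρ = x.map (ρ.comp φ) := by
  cases x <;> rfl

theorem bij_of_comp {V W : Type} [AddCommGroup V] [AddCommGroup W] [Module ℚ V] [Module ℚ W]
    (f : V → W) (g : W → V) (c : ℚ) (hc : c ≠ 0) (h1 : ∀ v, g (f v) = c • v)
    (hf : IsLinearMap ℚ f) (h2 : ∀ w, f (g w) = c • w) : Function.Bijective f := by
  constructor
  · intro a b hab
    have h3 : c • a = c • b := by rw [← h1, ← h1, hab]
    exact smul_right_injective V hc h3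
  · intro w
    refine ⟨c⁻¹ • g w, ?_⟩
    rw [hf.2, h2, smul_smul, inv_mul_cancel₀ hc, one_smul]

theorem inducesIso (φ : F →+* F') (k : ℕ) (hk : ∀ y : F', ∃ x : F, φ x = y ^ p ^ k) :
    InducesIso φ := by
  obtain ⟨ρ, hρ1, hρ2⟩ := exists_back p φ k hk
  choose T hT using fun m j => exists_T φ m j
  choose S hS using fun j => exists_S φ j
  choose T' hT' using fun m j => exists_T ρ m j
  choose S' hS' using fun j => exists_S ρ j
  have hp0 : (p : ℚ) ≠ 0 := Nat.cast_ne_zero.2 hp.out.ne_zero
  refine ⟨fun m j => T m j, fun j => S j, fun m j => ⟨⟨isLin _, hT m j⟩, ?_⟩,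
    fun j => ⟨⟨isLin _, hS j⟩, ?_⟩, fun D D' => ⟨fun m j u => ?_, fun j u => ?_⟩⟩
  · refine bij_of_comp (T m j) (T' m j) (((p : ℚ) ^ (m + 2 + j)) ^ k)
      (pow_ne_zero _ (pow_ne_zero _ hp0)) (fun v => ?_) (isLin _) (fun w => ?_)
    · have h := text_P m j (fun v => T' m j (T m j v))
        (fun v => (((p : ℚ) ^ (m + 2 + j)) ^ k) • v) (isLin ((T' m j) ∘ₗ (T m j)))
        (isSm _) (fun x y => ?_)
      · exact congrFun h v
      · beta_reduce
        rw [hT, hT', map_comp_apply, hρ2, ← tqP_iter p m j k x y, ← hρ2]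
        rfl
    · have h := text_P m j (fun v => T m j (T' m j v))
        (fun v => (((p : ℚ) ^ (m + 2 + j)) ^ k) • v) (isLin ((T m j) ∘ₗ (T' m j)))
        (isSm _) (fun x y => ?_)
      · exact congrFun h w
      · beta_reduce
        rw [hT', hT, map_comp_apply, hρ1, ← tqP_iter p m j k x y, ← hρ1]
        rfl
  · refine bij_of_comp (S j) (S' j) (((p : ℚ) ^ j) ^ k)
      (pow_ne_zero _ (pow_ne_zero _ hp0)) (fun v => ?_) (isLin _) (fun w => ?_)
    · have h := lext_P j (fun v => S' j (S j v))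
        (fun v => (((p : ℚ) ^ j) ^ k) • v) (isLin ((S' j) ∘ₗ (S j)))
        (isSm _) (fun y => ?_)
      · exact congrFun h v
      · beta_reduce
        rw [hS, hS', ← lqP_iter p j k y, ← hρ2]
        rfl
    · have h := lext_P j (fun v => S j (S' j v))
        (fun v => (((p : ℚ) ^ j) ^ k) • v) (isLin ((S j) ∘ₗ (S' j)))
        (isSm _) (fun y => ?_)
      · exact congrFun h w
      · beta_reduce
        rw [hS', hS, ← lqP_iter p j k y, ← hρ1]
        rfl
  · -- the differentials `d`
    have hD := D.d_spec m j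
    have hD' := D'.d_spec m j
    have hlin1 : IsLinearMap ℚ (fun u => T m (j + 1) (D.d m j u)) :=
      isLin ((T m (j + 1)) ∘ₗ (hD.1.mk' _))
    have hlin2 : IsLinearMap ℚ (fun u => D'.d m j (T (m + 1) j u)) :=
      isLin ((hD'.1.mk' _) ∘ₗ (T (m + 1) j))
    have h := text_P (m + 1) j _ _ hlin1 hlin2 (fun x y => ?_)
    · exact congrFun h u
    · beta_reduce
      rw [hT]
      cases x with
      | none =>
        rw [show D.d m j (tq (m + 1 + 2) j none y) = 0 from hD.2.1 y, map_zero]
        exact (hD'.2.1 _).symm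
      | some x =>
        by_cases hx : x = 0
        · subst hx
          rw [show D.d m j (tq (m + 1 + 2) j (some 0) y) = 0 from hD.2.2.1 y, map_zero,
            Option.map_some, map_zero]
          exact (hD'.2.2.1 _).symm
        · rw [show D.d m j (tq (m + 1 + 2) j (some x) y) = _ from hD.2.2.2 x y hx, hT]
          have hx' : φ x ≠ 0 := (map_ne_zero φ).2 hx
          rw [show D'.d m j (tq (m + 1 + 2) j (Option.map φ (some x)) fun i => onUnits φ (y i)) = _
            from hD'.2.2.2 (φ x) _ hx']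
          congr 1
          funext i
          refine Fin.cases ?_ (fun i => ?_) i
          · rw [Fin.cons_zero, Fin.cons_zero, onUnits_cl]
          · rw [Fin.cons_succ, Fin.cons_succ]
  · -- the differentials `e`
    have hD := D.e_spec j
    have hD' := D'.e_spec j
    have hlin1 : IsLinearMap ℚ (fun u => S (j + 2) (D.e j u)) :=
      isLin ((S (j + 2)) ∘ₗ (hD.1.mk' _))
    have hlin2 : IsLinearMap ℚ (fun u => D'.e j (T 0 j u)) :=
      isLin ((hD'.1.mk' _) ∘ₗ (T 0 j))
    have h := text_P 0 j _ _ hlin1 hlin2 (fun x y => ?_)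
    · exact congrFun h u
    · beta_reduce
      rw [hT]
      cases x with
      | none =>
        rw [show D.e j (tq (0 + 2) j none y) = 0 from hD.2.1 y, map_zero]
        exact (hD'.2.1 _).symm
      | some x =>
        by_cases hx : x = 0
        · subst hx
          rw [show D.e j (tq (0 + 2) j (some 0) y) = 0 from hD.2.2.1 y, map_zero,
            Option.map_some, map_zero]
          exact (hD'.2.2.1 _).symm
        · by_cases hx1 : x = 1
          · subst hx1
            rw [show D.e j (tq (0 + 2) j (some 1) y) = 0 from hD.2.2.2.1 y, map_zero,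
              Option.map_some, map_one]
            exact (hD'.2.2.2.1 _).symm
          · rw [show D.e j (tq (0 + 2) j (some x) y) = _ from hD.2.2.2.2 x y hx hx1, hS]
            have hx' : φ x ≠ 0 := (map_ne_zero φ).2 hx
            have hx1' : φ x ≠ 1 := fun h => hx1 (φ.injective (by rw [h, map_one]))
            rw [show D'.e j (tq (0 + 2) j (Option.map φ (some x)) fun i => onUnits φ (y i)) = _
              from hD'.2.2.2.2 (φ x) _ hx' hx1']
            congr 1
            funext i
            refine Fin.cases ?_ (fun i => ?_) i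
            · rw [Fin.cons_zero, Fin.cons_zero, onUnits_cl, map_sub, map_one]
            · refine Fin.cases ?_ (fun i => ?_) i
              · rw [Fin.cons_succ, Fin.cons_succ, Fin.cons_zero, Fin.cons_zero, onUnits_cl]
              · rw [Fin.cons_succ, Fin.cons_succ, Fin.cons_succ, Fin.cons_succ]

end frob

end Pool.Agent.TH358.GP
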