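import Pool.Agent.H39R2.GonP.Defs

set_option autoImplicit false

/-!
# Maps between the terms of Goncharov's complexes induced by a homomorphism of fields
-/

namespace Pool.Agent.TH358.GP

open GonP

variable {F F' : Type} [Field F] [Field F']

/-- the map `F^* → F'^*`, written additively, of a homomorphism of fields -/
def onUnits (φ : F →+* F') (y : UV F) : UV F' :=
  Additive.ofMul (Units.map (φ : F →* F') y.toMul)

/-- `T` is the homomorphism `B_n(F) → B_n(F')`, `{x} ↦ {φ x}` -/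
def InducedB (φ : F →+* F') (n : ℕ) (T : B n F → B n F') : Prop :=
  (∀ b c, T (b + c) = T b + T c) ∧
    ∀ x : P1 F, T (toQuo (R n F) (gen x)) = toQuo (R n F') (gen (x.map φ))

/-- `T` is the `ℚ`-linear map `(B_m(F) ⊗ Λ^j F^*)_ℚ → (B_m(F') ⊗ Λ^j F'^*)_ℚ`,
`{x}_m ⊗ y_1 ∧ ... ∧ y_j ↦ {φ x}_m ⊗ φ y_1 ∧ ... ∧ φ y_j` -/
def Induced (φ : F →+* F') (m j : ℕ) (T : TQ F m j → TQ F' m j) : Prop :=
  IsLinearMap ℚ T ∧
    ∀ (x : P1 F) (y : Fin j → UV F), T (tq m j x y) = tq m j (x.map φ) (fun i => onUnits φ (y i))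

/-- `T` is the `ℚ`-linear map `(Λ^j F^*)_ℚ → (Λ^j F'^*)_ℚ`,
`y_1 ∧ ... ∧ y_j ↦ φ y_1 ∧ ... ∧ φ y_j` -/
def InducedL (φ : F →+* F') (j : ℕ) (T : LQ F j → LQ F' j) : Prop :=
  IsLinearMap ℚ T ∧ ∀ y : Fin j → UV F, T (lq j y) = lq j (fun i => onUnits φ (y i))

/-- `φ` induces an isomorphism `Γ(F,n) ⊗ ℚ → Γ(F',n) ⊗ ℚ` for every `n ≥ 2`: bijective maps of
all terms, which commute with the differentials. -/
def InducesIso (φ : F →+* F') : Prop :=
  ∃ (T : ∀ m j : ℕ, TQ F (m + 2) j → TQ F' (m + 2) j) (S : ∀ j : ℕ, LQ F j → LQ F' j),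
    (∀ m j, Induced φ (m + 2) j (T m j) ∧ Function.Bijective (T m j)) ∧
    (∀ j, InducedL φ j (S j) ∧ Function.Bijective (S j)) ∧
    ∀ (D : Differentials F) (D' : Differentials F'),
      (∀ m j u, T m (j + 1) (D.d m j u) = D'.d m j (T (m + 1) j u)) ∧
      ∀ j u, S (j + 2) (D.e j u) = D'.e j (T 0 j u)

end Pool.Agent.TH358.GP
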