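import Pool.Agent.TH358.GP.EvS

set_option autoImplicit false

/-!
# Consequences for the complexes
-/

namespace Pool.Agent.TH358.GP

open scoped TensorProduct
open Polynomial H39Gon H39Gon.C4 H39Gon.TC2 H39Gon.E2

/-! ### isomorphic fields, unions of finite fields -/

/-- transport of `Ψ` -/
noncomputable def trans {F F' : Type} [Field F] [Field F'] (u : UV F' →ₗ[ℤ] UV F) {W : Type}
    [AddCommGroup W] {m : ℕ}
    (Ψ : UV F →ₗ[ℤ] UV F →ₗ[ℤ] MultilinearMap ℤ (fun _ : Fin m => UV F) W) :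
    UV F' →ₗ[ℤ] UV F' →ₗ[ℤ] MultilinearMap ℤ (fun _ : Fin m => UV F') W :=
  LinearMap.mk₂ ℤ (fun a b => (Ψ (u a) (u b)).compLinearMap (fun _ => u))
    (by intro a a' b; ext c; simp)
    (by intro n a b; ext c; simp)
    (by intro a b b'; ext c; simp)
    (by intro n a b; ext c; simp)

theorem trans_apply {F F' : Type} [Field F] [Field F'] (u : UV F' →ₗ[ℤ] UV F) {W : Type}
    [AddCommGroup W] {m : ℕ}
    (Ψ : UV F →ₗ[ℤ] UV F →ₗ[ℤ] MultilinearMap ℤ (fun _ : Fin m => UV F) W)
    (a b : UV F') (c : Fin m → UV F') :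
    trans u Ψ a b c = Ψ (u a) (u b) (fun i => u (c i)) := rfl

theorem evS_iso {F F' : Type} [Field F] [Field F'] (e : F ≃+* F') (h : EvS F) : EvS F' := by
  intro m W _ _ θ hθ
  obtain ⟨Ψ, hΨ, hev⟩ := h m W (θ ∘ₗ (rmM (e : F →+* F'))) (fun r hr => by
    rw [LinearMap.comp_apply]
    exact hθ _ (R_map (e : F →+* F') m r hr))
  refine ⟨trans (rmU (e.symm : F' →+* F)) Ψ, fun a => ?_, ?_⟩
  · ext c
    rw [trans_apply, hΨ]
    rfl
  · apply Finsupp.lhom_ext'
    intro x
    apply LinearMap.ext_ring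
    rw [LinearMap.comp_apply, LinearMap.comp_apply, Finsupp.lsingle_apply]
    have h1 := congrArg (fun f => f (Finsupp.single (x.map e.symm) 1)) hev
    simp only [LinearMap.comp_apply] at h1
    rw [rmM_single] at h1
    cases x with
    | none =>
      rw [ev_single_none]
      rw [Option.map_none, Option.map_none, ev_single_none] at h1
      exact h1
    | some x =>
      rw [ev_single_some, trans_apply, rmU_cl, rmU_cl, one_smul]
      rw [Option.map_some, Option.map_some, ev_single_some, one_smul] at h1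
      have h2 : (e : F →+* F') (e.symm x) = x := e.apply_symm_apply x
      rw [h2] at h1
      rw [h1, map_sub, map_one]
      rfl

theorem evS_of_torsion {F : Type} [Field F]
    (h : ∀ (m : ℕ) (x : P1 F), ∃ N : ℕ, 0 < N ∧ N • (Finsupp.single x 1 : ZP F) ∈ R (m + 2) F) :
    EvS F := by
  intro m W _ _ θ hθ
  refine ⟨0, fun a => rfl, ?_⟩
  apply Finsupp.lhom_ext'
  intro x
  apply LinearMap.ext_ring
  rw [LinearMap.comp_apply, LinearMap.comp_apply, Finsupp.lsingle_apply]
  have h1 : θ (Finsupp.single x 1) = 0 := by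
    obtain ⟨N, hN, h2⟩ := h m x
    have h3 := hθ _ h2
    rw [map_nsmul, ← Nat.cast_smul_eq_nsmul ℚ] at h3
    exact (smul_eq_zero.1 h3).resolve_left (Nat.cast_ne_zero.2 hN.ne')
  rw [h1]
  cases x with
  | none => rw [ev_single_none]
  | some x => rw [ev_single_some]; simp

theorem evS_base {F : Type} [Field F] (hF : ∀ x : F, ∃ K : Subfield F, Finite K ∧ x ∈ K) :
    EvS F := by
  classical
  obtain ⟨K, hK, -⟩ := hF 1
  obtain ⟨p, hc⟩ := CharP.exists K
  have := Fintype.ofFinite K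
  obtain ⟨r0, hp', -⟩ := FiniteField.card K p
  have hp : Fact p.Prime := ⟨hp'⟩
  have hcF : CharP F p := charP_of_injective_ringHom K.subtype.injective p
  apply evS_of_torsion
  intro m x
  cases x with
  | none =>
    refine ⟨1, one_pos, ?_⟩
    rw [one_smul]
    cases m with
    | zero => exact Submodule.subset_span (Or.inl (Or.inr rfl))
    | succ m => exact Submodule.subset_span (Or.inl (Or.inr rfl))
  | some x =>
    obtain ⟨L, hL, hx⟩ := hF x
    have := Fintype.ofFinite L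
    have hc' : CharP L p := RingHom.charP L.subtype L.subtype.injective p
    obtain ⟨r, -, hr⟩ := FiniteField.card L p
    have h1 := FiniteField.pow_card (⟨x, hx⟩ : L)
    rw [hr] at h1
    have h2 : x ^ p ^ (r : ℕ) = x := congrArg (fun y : L => (y : F)) h1
    have h := frob_iter (F := F) p m x r
    rw [h2] at h
    have hp2 : 2 ≤ p := hp'.two_le
    have h3 : 1 < (p ^ (m + 2)) ^ (r : ℕ) := by
      rw [← pow_mul]
      exact Nat.one_lt_pow (by have := r.pos; positivity) (by omega)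
    refine ⟨(p ^ (m + 2)) ^ (r : ℕ) - 1, by omega, ?_⟩
    have h4 := Submodule.neg_mem _ h
    convert h4 using 1
    rw [← natCast_zsmul, Nat.cast_sub h3.le]
    push_cast
    rw [sub_smul, one_smul, neg_sub]

/-! ### the differentials exist -/

section gen

variable {F : Type} [Field F] (hF : EvS F)

include hF

theorem exists_d (m j : ℕ) :
    ∃ d : TQ F (m + 3) j →ₗ[ℚ] TQ F (m + 2) (j + 1),
      (∀ y, d (tq F (m + 3) j none y) = 0) ∧
      (∀ y, d (tq F (m + 3) j (some 0) y) = 0) ∧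
      (∀ (x : F) y, x ≠ 0 → d (tq F (m + 3) j (some x) y) =
        tq F (m + 2) (j + 1) (some x) (Fin.cons (cl x) y)) := by
  have hθ : ∀ r ∈ R (m + 2) F,
      ((e1T F m j) ∘ₗ (R (m + 2) F).mkQ) r = 0 := by
    intro r hr
    have : (R (m + 2) F).mkQ r = 0 := by simpa using hr
    rw [LinearMap.comp_apply, this, map_zero]
  obtain ⟨Ψ', hΨ', h⟩ := hF m _ _ hθ
  obtain ⟨Ψ, hΨa, hΨ⟩ := e1_step m Ψ' hΨ'
  obtain ⟨d, hd⟩ := e1_lift_R m j Ψ hΨa
  have hsome : ∀ (x : F) (y : Fin j → UV F),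
      d (tq F (m + 3) j (some x) y) =
        tq F (m + 2) (j + 1) (some x) (Fin.cons (cl x) y) := by
    intro x y
    rw [hd, hΨ, ← h, ← e1T_apply]
    rfl
  refine ⟨d, ?_, ?_, fun x y _ => hsome x y⟩
  · intro y
    rw [hd, e1ev_none]
    rfl
  · intro y
    rw [hsome, e1cl_zero]
    unfold tq
    rw [(exteriorPower.ιMulti ℤ (j + 1)).map_coord_zero (i := 0) (by simp),
      TensorProduct.tmul_zero, TensorProduct.tmul_zero]

theorem exists_D : Nonempty (Differentials F) := by
  choose d hd using fun m j => exists_d hF m j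
  refine ⟨⟨d, fun m j => (hd m j).1, fun m j => (hd m j).2.1, fun m j => (hd m j).2.2,
    e1e F, ?_, ?_, ?_, ?_⟩⟩
  · intro j y
    rw [e1e_apply, e1ev_none]
    rfl
  · intro j y
    rw [e1e_apply, e1ev_some, e1Psi_apply, e1Psi2_apply, e1cl_zero]
    unfold lq
    rw [(exteriorPower.ιMulti ℤ (j + 2)).map_coord_zero (i := 1) (by simp),
      TensorProduct.tmul_zero]
  · intro j y
    rw [e1e_apply, e1ev_some, e1Psi_apply, e1Psi2_apply, e1cl_one]
    unfold lq
    rw [(exteriorPower.ιMulti ℤ (j + 2)).map_coord_zero (i := 1) (by simp),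
      TensorProduct.tmul_zero]
  · intro j x y _ _
    rw [e1e_apply, e1ev_some, e1Psi_apply, e1Psi2_apply]

theorem inj_d (D : Differentials F) (m : ℕ) : Function.Injective (D.d m 0) := by
  apply injective_of_dual
  intro φ
  obtain ⟨Ψ, hΨ, hev⟩ := hF (m + 1) _ (toTheta φ) (fun r hr => toTheta_R φ r hr)
  have hnone : ∀ y, φ (tq F (m + 3) 0 none y) = 0 := by
    intro y
    rw [← toTheta_apply, hev, ev_none]
    rfl
  have hsome : ∀ x y, φ (tq F (m + 3) 0 (some x) y) =
      Ψ (cl (1 - x)) (cl x) (fun _ => cl x) y := by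
    intro x y
    rw [← toTheta_apply, hev, ev_some]
  obtain ⟨Q', hQ1, hQ2⟩ := koszul_step m 0 (qOf Ψ) (by
      intro s
      rw [qOf_apply, hΨ]
      rfl) (by
      intro i hi
      omega)
  refine ⟨ofTheta (theta' Q') (theta'_R Q' hQ1), fun v => ?_⟩
  have h2 : φ = (ofTheta (theta' Q') (theta'_R Q' hQ1)) ∘ₗ (D.d m 0) := by
    apply text
    intro x y
    rw [LinearMap.comp_apply]
    rcases x with _ | x
    · rw [hnone, D.d_inf, map_zero]
    · by_cases hx : x = 0
      · subst hx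
        rw [D.d_zero, map_zero, hsome, H39Gon.E2.cl_zero, map_zero]
        rfl
      · rw [D.d_some m 0 x y hx, ofTheta_apply, theta'_some, hQ2, qOf_apply, hsome]
  rw [h2]
  rfl

theorem inj_e (D : Differentials F) : Function.Injective (D.e 0) := by
  apply injective_of_dual
  intro φ
  obtain ⟨Ψ, hΨ, hev⟩ := hF 0 _ (toTheta φ) (fun r hr => toTheta_R φ r hr)
  have hnone : ∀ y, φ (tq F 2 0 none y) = 0 := by
    intro y
    rw [← toTheta_apply, hev, ev_none]
    rfl
  have hsome : ∀ x y, φ (tq F 2 0 (some x) y) =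
      Ψ (cl (1 - x)) (cl x) (fun _ => cl x) y := by
    intro x y
    rw [← toTheta_apply, hev, ev_some]
  let Q : UV F →ₗ[ℤ] (UV F →ₗ[ℤ] (UV F [⋀^Fin 0]→ₗ[ℤ] ℚ)) :=
    LinearMap.mk₂ ℤ (fun s v => Ψ v s Fin.elim0)
      (fun a b c => by simp) (fun a b c => by simp) (fun a b c => by simp)
      (fun a b c => by simp)
  have hQ : ∀ s v, Q s v = Ψ v s (fun _ => s) := by
    intro s v
    change Ψ v s Fin.elim0 = _
    congr 1
    exact Subsingleton.elim _ _
  obtain ⟨Θ, hΘ⟩ := koszul_last 0 Q (by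
      intro s
      rw [hQ, hΨ]
      rfl) (by
      intro i hi
      omega)
  refine ⟨ofAlt Θ, fun v => ?_⟩
  have h2 : φ = (ofAlt Θ) ∘ₗ (D.e 0) := by
    apply text
    intro x y
    rw [LinearMap.comp_apply]
    rcases x with _ | x
    · rw [hnone, D.e_inf, map_zero]
    · by_cases hx : x = 0
      · subst hx
        rw [D.e_zero, map_zero, hsome, H39Gon.E2.cl_zero, map_zero]
        rfl
      · by_cases hx1 : x = 1
        · subst hx1
          rw [D.e_one, map_zero, hsome, sub_self, H39Gon.E2.cl_zero, map_zero]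
          rfl
        · rw [D.e_some 0 x y hx hx1, ofAlt_apply, hΘ, hQ, hsome]
  rw [h2]
  rfl

/-- an element of `ℤ[P^1_F]` which is killed by all `ev Ψ` is a torsion element of `B_n(F)` -/
theorem tors_of_ev (m : ℕ) (α : ZP F)
    (h : ∀ Ψ : UV F →ₗ[ℤ] UV F →ₗ[ℤ] MultilinearMap ℤ (fun _ : Fin m => UV F) ℚ,
      (∀ a, Ψ a a = 0) → ev Ψ α = 0) : ∃ N : ℕ, 0 < N ∧ N • α ∈ R (m + 2) F := by
  by_contra hcon
  push Not at hcon
  have hinj : Function.Injective ((LinearMap.toSpanSingleton ℤ (B (m + 2) F)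
      ((R (m + 2) F).mkQ α))) := by
    rw [injective_iff_map_eq_zero]
    intro n hn
    rw [LinearMap.toSpanSingleton_apply, ← map_smul, Submodule.mkQ_apply,
      Submodule.Quotient.mk_eq_zero] at hn
    by_contra hn0
    have h1 : (n.natAbs) • α ∈ R (m + 2) F := by
      rw [← natCast_zsmul]
      rcases Int.natAbs_eq n with h2 | h2
      · rw [← h2]; exact hn
      · have h3 : ((n.natAbs : ℕ) : ℤ) = -n := by omega
        rw [h3, neg_smul]
        exact Submodule.neg_mem _ hn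
    exact hcon n.natAbs (Int.natAbs_pos.2 hn0) h1
  let _ := divQ ℚ
  have hB : Module.Baer ℤ ℚ := Module.Baer.of_divisible ℚ
  obtain ⟨L, hL⟩ := hB.extension_property _ hinj (LinearMap.toSpanSingleton ℤ ℚ 1)
  obtain ⟨Ψ, hΨ, hev⟩ := hF m ℚ (L ∘ₗ (R (m + 2) F).mkQ) (fun r hr => by
    have h1 : (R (m + 2) F).mkQ r = 0 := by
      rw [Submodule.mkQ_apply, Submodule.Quotient.mk_eq_zero]
      exact hr
    rw [LinearMap.comp_apply, h1, map_zero])
  have h1 := h Ψ hΨ
  rw [← hev] at h1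
  have h2 := LinearMap.congr_fun hL 1
  rw [LinearMap.comp_apply, LinearMap.toSpanSingleton_apply, LinearMap.toSpanSingleton_apply,
    one_smul, one_smul] at h2
  have h3 : L ((R (m + 2) F).mkQ α) = 0 := h1
  rw [h3] at h2
  exact zero_ne_one h2

end gen

theorem ev_of_tors {F : Type} [Field F] (m : ℕ) (α : ZP F) (N : ℕ) (hN : 0 < N)
    (h : N • α ∈ R (m + 2) F)
    (Ψ : UV F →ₗ[ℤ] UV F →ₗ[ℤ] MultilinearMap ℤ (fun _ : Fin m => UV F) ℚ)
    (hΨ : ∀ a, Ψ a a = 0) : ev Ψ α = 0 := by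
  have h1 := ev_R Ψ hΨ _ h
  rw [map_nsmul, ← Nat.cast_smul_eq_nsmul ℚ] at h1
  exact (smul_eq_zero.1 h1).resolve_left (Nat.cast_ne_zero.2 hN.ne')

end Pool.Agent.TH358.GP
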