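import Pool.Agent.TH358.GP.EvC
import Pool.Agent.H39R2.GonP.Bridge

set_option autoImplicit false

/-!
# Purely inseparable extensions
-/

namespace Pool.Agent.TH358.GP

open scoped TensorProduct
open Polynomial H39Gon H39Gon.C4 H39Gon.TC2 H39Gon.E2

theorem exists_root {F F' : Type} [Field F] [Field F'] (p : ℕ) [hp : Fact p.Prime] [CharP F' p]
    (φ : F →+* F') (hk : ∀ y : F', ∃ x : F, φ x = y ^ p) :
    ∃ ρ : F' →+* F, ∀ y, φ (ρ y) = y ^ p := by
  choose r hr using hk
  have hinj := φ.injective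
  refine ⟨{ toFun := r, map_one' := ?_, map_mul' := ?_, map_zero' := ?_, map_add' := ?_ }, hr⟩
  · apply hinj; rw [hr, map_one, one_pow]
  · intro a b; apply hinj; rw [map_mul, hr, hr, hr, mul_pow]
  · apply hinj; rw [hr, map_zero, zero_pow hp.out.ne_zero]
  · intro a b; apply hinj; rw [map_add, hr, hr, hr, add_pow_char]

theorem evS_insep {F F' : Type} [Field F] [Field F'] (p : ℕ) [hp : Fact p.Prime] [CharP F' p]
    (φ : F →+* F') (hk : ∀ y : F', ∃ x : F, φ x = y ^ p) (h : EvS F) : EvS F' := by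
  obtain ⟨ρ, hρ⟩ := exists_root p φ hk
  intro m W _ _ θ hθ
  obtain ⟨Ψ, hΨ, hev⟩ := h m W (θ ∘ₗ (rmM φ)) (fun r hr => by
    rw [LinearMap.comp_apply]
    exact hθ _ (R_map φ m r hr))
  have hp0 : ((p : ℚ) ^ (m + 2)) ≠ 0 := pow_ne_zero _ (Nat.cast_ne_zero.2 hp.out.ne_zero)
  -- multiplication by `p^(-n)` on `W`
  let c : W →ₗ[ℤ] W := AddMonoidHom.toIntLinearMap
    ((LinearMap.lsmul ℚ W ((p : ℚ) ^ (m + 2))⁻¹).toAddMonoidHom)
  have hc : ∀ w : W, c w = ((p : ℚ) ^ (m + 2))⁻¹ • w := fun w => rfl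
  let E : MultilinearMap ℤ (fun _ : Fin m => UV F') W →ₗ[ℤ]
      MultilinearMap ℤ (fun _ : Fin m => UV F') W :=
    { toFun := fun f => c.compMultilinearMap f
      map_add' := fun f g => by ext v; simp
      map_smul' := fun n f => by ext v; simp }
  refine ⟨(trans (rmU ρ) Ψ).compr₂ E, fun a => ?_, ?_⟩
  · rw [LinearMap.compr₂_apply]
    have h1 : trans (rmU ρ) Ψ a a = 0 := by
      ext v
      rw [trans_apply, hΨ]
      rfl
    rw [h1, map_zero]
  · apply Finsupp.lhom_ext'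
    intro x
    apply LinearMap.ext_ring
    rw [LinearMap.comp_apply, LinearMap.comp_apply, Finsupp.lsingle_apply]
    have h1 := congrArg (fun f => f (Finsupp.single (x.map ρ) 1)) hev
    simp only [LinearMap.comp_apply] at h1
    rw [rmM_single] at h1
    cases x with
    | none =>
      rw [ev_single_none]
      rw [Option.map_none, Option.map_none, ev_single_none] at h1
      exact h1
    | some x =>
      rw [ev_single_some, one_smul]
      rw [Option.map_some, Option.map_some, ev_single_some, one_smul, hρ] at h1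
      have h2 := hθ _ (frob (F := F') p m x)
      rw [map_sub, map_smul, sub_eq_zero, h1] at h2
      have h3 : ((trans (rmU ρ) Ψ).compr₂ E) (cl (1 - x)) (cl x) (fun _ => cl x) =
          ((p : ℚ) ^ (m + 2))⁻¹ • Ψ (cl (1 - ρ x)) (cl (ρ x)) (fun _ => cl (ρ x)) := by
        change c (trans (rmU ρ) Ψ (cl (1 - x)) (cl x) (fun _ => cl x)) = _
        rw [hc, trans_apply, rmU_cl, rmU_cl, map_sub, map_one]
      rw [h3, h2]
      have h4 : ((p : ℤ) ^ (m + 2)) • θ (Finsupp.single (some x) 1) =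
          ((p : ℚ) ^ (m + 2)) • θ (Finsupp.single (some x) 1) := by
        rw [← Int.cast_smul_eq_zsmul ℚ]
        push_cast
        rfl
      rw [h4, smul_smul, inv_mul_cancel₀ hp0, one_smul]

/-! ### the version for the other set of definitions -/

theorem evG_eq {F : Type} [Field F] {m : ℕ}
    (Ψ : UV F →ₗ[ℤ] UV F →ₗ[ℤ] MultilinearMap ℤ (fun _ : Fin m => UV F) ℚ) (α : ZP F) :
    GonP.lift (fun x => match x with
      | none => 0
      | some x => Ψ (GonP.cl (1 - x)) (GonP.cl x) (fun _ => GonP.cl x)) α = ev Ψ α := by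
  rw [GonP.lift_eq]
  rfl

theorem tors_iff {F : Type} [Field F] (m : ℕ) (α : ZP F) :
    (∃ N : ℕ, 0 < N ∧ N • GonP.toQuo (GonP.R (m + 2) F) α = 0) ↔
      ∃ N : ℕ, 0 < N ∧ N • α ∈ R (m + 2) F := by
  have h1 : ∀ N : ℕ, N • GonP.toQuo (GonP.R (m + 2) F) α =
      GonP.toQuo (GonP.R (m + 2) F) (N • α) := fun N => rfl
  constructor
  · rintro ⟨N, hN, h⟩
    refine ⟨N, hN, ?_⟩
    rw [h1] at h
    have h2 := (QuotientAddGroup.eq_zero_iff (N := GonP.R (m + 2) F) (N • α)).1 h
    rw [GonP.R_eq] at h2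
    exact h2
  · rintro ⟨N, hN, h⟩
    refine ⟨N, hN, ?_⟩
    rw [h1]
    refine (QuotientAddGroup.eq_zero_iff (N := GonP.R (m + 2) F) (N • α)).2 ?_
    rw [GonP.R_eq]
    exact h

theorem main_class (F : Type) [i : Field F] (hF : EvS F) :
    (∃ D : GonP.Differentials F, (∀ D' : GonP.Differentials F, D' = D) ∧
      (∀ m, Function.Injective (D.d m 0)) ∧ Function.Injective (D.e 0)) ∧
    ∀ (m : ℕ) (α : ZP F), (∃ N : ℕ, 0 < N ∧ N • GonP.toQuo (GonP.R (m + 2) F) α = 0) ↔
      ∀ Ψ : UV F →ₗ[ℤ] UV F →ₗ[ℤ] MultilinearMap ℤ (fun _ : Fin m => UV F) ℚ,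
        (∀ a, Ψ a a = 0) → GonP.lift (fun x => match x with
          | none => 0
          | some x => Ψ (GonP.cl (1 - x)) (GonP.cl x) (fun _ => GonP.cl x)) α = 0 := by
  constructor
  · obtain ⟨D⟩ := exists_D hF
    refine ⟨GonP.ofD D, fun D' => GonP.unique (GonP.ofD D) D', fun m => ?_, ?_⟩
    · change Function.Injective (fun x => (GonP.eT F m 1).symm
        (D.d m 0 (GonP.eT F (m + 1) 0 x)))
      exact (GonP.eT F m 1).symm.injective.comp
        ((inj_d hF D m).comp (GonP.eT F (m + 1) 0).injective)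
    · change Function.Injective (fun x => (GonP.eLQ F 2).symm
        (D.e 0 (GonP.eT F 0 0 x)))
      exact (GonP.eLQ F 2).symm.injective.comp
        ((inj_e hF D).comp (GonP.eT F 0 0).injective)
  · intro m α
    rw [tors_iff]
    constructor
    · rintro ⟨N, hN, h⟩ Ψ hΨ
      rw [evG_eq]
      exact ev_of_tors m α N hN h Ψ hΨ
    · intro h
      refine tors_of_ev hF m α (fun Ψ hΨ => ?_)
      rw [← evG_eq]
      exact h Ψ hΨ

end Pool.Agent.TH358.GP

namespace Pool.Agent.TH358.GP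

open H39Gon H39Gon.C4

/-- an element of the kernel of `δ_2` of `K(x)` is constant modulo `R_2` -/
theorem rigid2 (K : Type) [Field K] (α : ZP (RatFunc K)) (hα : α ∈ GonP.A2 (RatFunc K)) :
    GonP.toQuo (GonP.R 2 (RatFunc K)) α = GonP.toQuo (GonP.R 2 (RatFunc K))
      ((GonP.specZ (0 : K) α).mapDomain (Option.map (RatFunc.C : K →+* RatFunc K))) := by
  rw [GonP.A2_eq] at hα
  have h := const_mod K (LinearMap.ker (delta2 (RatFunc (RatFunc K)))) α (by
    rw [LinearMap.mem_ker, rm_delta2, LinearMap.mem_ker.1 hα, map_zero])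
  have h2 : α - rmM (RatFunc.C : K →+* RatFunc K) (specZ K 0 α) ∈ GonP.R (0 + 2) (RatFunc K) := by
    rw [GonP.R_eq]
    exact h
  rw [GonP.specZ_eq]
  have h3 : (QuotientAddGroup.mk α : ZP (RatFunc K) ⧸ GonP.R 2 (RatFunc K)) =
      QuotientAddGroup.mk (rmM (RatFunc.C : K →+* RatFunc K) (specZ K 0 α)) := by
    rw [QuotientAddGroup.eq, ← AddSubgroup.neg_mem_iff]
    have h4 : -(-α + rmM (RatFunc.C : K →+* RatFunc K) (specZ K 0 α)) =
      α - rmM (RatFunc.C : K →+* RatFunc K) (specZ K 0 α) := by abel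
    rw [h4]
    exact h2
  exact h3

/-- an element of the kernel of `δ_n` of `K(x)`, `n = m + 3`, is constant modulo `R_n` -/
theorem rigidS (K : Type) [Field K] (m : ℕ) (α : ZP (RatFunc K))
    (hα : α ∈ GonP.AS (RatFunc K) (GonP.R (m + 2) (RatFunc K))) :
    GonP.toQuo (GonP.R (m + 3) (RatFunc K)) α = GonP.toQuo (GonP.R (m + 3) (RatFunc K))
      ((GonP.specZ (0 : K) α).mapDomain (Option.map (RatFunc.C : K →+* RatFunc K))) := by
  rw [GonP.AS_eq (R (m + 2) (RatFunc K)) _ (GonP.R_eq m)] at hα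
  have h := const_mod K
    (LinearMap.ker (deltaS (RatFunc (RatFunc K)) (R (m + 2) (RatFunc (RatFunc K))))) α (by
    rw [LinearMap.mem_ker, rm_deltaS (phi K) (R (m + 2) (RatFunc K)) _
      (fun s hs => R_map (phi K) m s hs), LinearMap.mem_ker.1 hα, map_zero])
  have h2 : α - rmM (RatFunc.C : K →+* RatFunc K) (specZ K 0 α) ∈
      GonP.R ((m + 1) + 2) (RatFunc K) := by
    rw [GonP.R_eq]
    exact h
  rw [GonP.specZ_eq]
  have h3 : (QuotientAddGroup.mk α : ZP (RatFunc K) ⧸ GonP.R (m + 3) (RatFunc K)) =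
      QuotientAddGroup.mk (rmM (RatFunc.C : K →+* RatFunc K) (specZ K 0 α)) := by
    rw [QuotientAddGroup.eq, ← AddSubgroup.neg_mem_iff]
    have h4 : -(-α + rmM (RatFunc.C : K →+* RatFunc K) (specZ K 0 α)) =
      α - rmM (RatFunc.C : K →+* RatFunc K) (specZ K 0 α) := by abel
    rw [h4]
    exact h2
  exact h3

end Pool.Agent.TH358.GP
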