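import Pool.Agent.H39R2.Gon.C2
import Pool.Agent.H39R2.Gon.C4
import Pool.Agent.H39R2.Gon.E1
import Pool.Agent.H39R2.Gon.E2

set_option autoImplicit false

/-!
# Functionals on `B_n(F)`: from a field `K` to the field `K(x)`
-/

namespace Pool.Agent.TH358.GP

open scoped TensorProduct
open Polynomial H39Gon H39Gon.C4 H39Gon.TC2

/-- Every functional on `B_n(F)`, `n ≥ 2`, with values in a `ℚ`-vector space is of the form `ev Ψ`. -/
def EvS (F : Type) [Field F] : Prop :=
  ∀ (m : ℕ) (W : Type) [AddCommGroup W] [Module ℚ W] (θ : ZP F →ₗ[ℤ] W),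
    (∀ r ∈ R (m + 2) F, θ r = 0) →
    ∃ Ψ : UV F →ₗ[ℤ] UV F →ₗ[ℤ] MultilinearMap ℤ (fun _ : Fin m => UV F) W,
      (∀ a, Ψ a a = 0) ∧ θ = ev Ψ

/-- `f(x t)` at `t = 0` is the value of `f` at `0` -/
theorem spec_zero_phi' (k : Type) [Field k] (x : P1 (RatFunc k)) :
    spec (RatFunc k) 0 (Option.map (phi k) x) = Option.map (RatFunc.C : k →+* RatFunc k)
      (spec k 0 x) := by
  classical
  cases x with
  | none => rfl
  | some f =>
    rw [Option.map_some, rm_spec_eq 0 (eta k f.num) (eta k f.denom)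
      ((map_ne_zero_iff _ (eta_inj k)).2 f.denom_ne_zero)
      (f.isCoprime_num_denom.map (eta k)) _ (phi_eq k f), eta_eval_zero, eta_eval_zero]
    by_cases h : f.denom.eval 0 = 0
    · rw [if_pos (by rw [h, map_zero])]
      simp [spec, h]
    · rw [if_neg (fun e => h ((map_eq_zero _).1 e))]
      simp [spec, h, map_div₀]

theorem specZ_zero_phi (k : Type) [Field k] (α : ZP (RatFunc k)) :
    specZ (RatFunc k) 0 (rmM (phi k) α) = rmM (RatFunc.C : k →+* RatFunc k) (specZ k 0 α) := by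
  induction α using Finsupp.induction_linear with
  | zero => simp
  | add a b ha hb => rw [map_add, map_add, ha, hb, map_add, map_add]
  | single x c =>
    rw [rmM_single, specZ, Finsupp.lmapDomain_apply, Finsupp.mapDomain_single, spec_zero_phi',
      specZ, Finsupp.lmapDomain_apply, Finsupp.mapDomain_single, rmM_single]

/-- an element `α` with `φ α ∈ A` is congruent to its value at `0` -/
theorem const_mod (k : Type) [Field k] (A' : Submodule ℤ (ZP (RatFunc (RatFunc k))))
    (α : ZP (RatFunc k)) (hα : rmM (phi k) α ∈ A') :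
    α - rmM (RatFunc.C : k →+* RatFunc k) (specZ k 0 α) ∈ relSpan (RatFunc k) A' := by
  have h2 : specZ (RatFunc k) 0 (rmM (phi k) α) - specZ (RatFunc k) 1 (rmM (phi k) α) ∈
      relSpan (RatFunc k) A' := Submodule.subset_span (Or.inr ⟨_, hα, rfl⟩)
  rw [specZ_one_phi, specZ_zero_phi] at h2
  have h3 := Submodule.neg_mem _ h2
  rwa [neg_sub] at h3

theorem evS_ratFunc (k : Type) [Field k] (hk : EvS k) : EvS (RatFunc k) := by
  -- the kernel of the differential is killed
  have key : ∀ (m : ℕ) (W : Type) [AddCommGroup W] [Module ℚ W] (θ : ZP (RatFunc k) →ₗ[ℤ] W),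
      (∀ r ∈ R (m + 2) (RatFunc k), θ r = 0) → ∀ α : ZP (RatFunc k),
      (α - rmM (RatFunc.C : k →+* RatFunc k) (specZ k 0 α) ∈ R (m + 2) (RatFunc k)) →
      (∀ Ψ : UV (RatFunc k) →ₗ[ℤ] UV (RatFunc k) →ₗ[ℤ]
        MultilinearMap ℤ (fun _ : Fin m => UV (RatFunc k)) W, (∀ a, Ψ a a = 0) → ev Ψ α = 0) →
      θ α = 0 := by
    intro m W _ _ θ hθ α h1 h2
    obtain ⟨Ψ, hΨ, hev⟩ := hk m W (θ ∘ₗ (rmM (RatFunc.C : k →+* RatFunc k))) (fun r hr => by
      rw [LinearMap.comp_apply]
      exact hθ _ (R_map (RatFunc.C : k →+* RatFunc k) m r hr))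
    have h3 := hθ _ h1
    rw [map_sub, sub_eq_zero] at h3
    rw [h3]
    have h4 : θ (rmM (RatFunc.C : k →+* RatFunc k) (specZ k 0 α)) = ev Ψ (specZ k 0 α) := by
      rw [← hev]
      rfl
    rw [h4, ← ev_pull 0 Ψ hΨ]
    apply h2
    intro a
    ext c
    rw [pull_apply, hΨ]
    rfl
  intro m
  induction m with
  | zero =>
    intro W _ _ θ hθ
    have hker : ∀ α, delta2 (RatFunc k) α = 0 → θ α = 0 := by
      intro α hα
      refine key 0 W θ hθ α ?_ (fun Ψ hΨ => ev_ker_delta2 Ψ hΨ α (LinearMap.mem_ker.2 hα))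
      exact const_mod k (LinearMap.ker (delta2 (RatFunc (RatFunc k)))) α (by
          rw [LinearMap.mem_ker, rm_delta2, hα, map_zero])
    obtain ⟨L, hL⟩ := exists_ext _ θ hker
    set f : MultilinearMap ℤ (fun _ : Fin 2 => UV (RatFunc k)) W :=
      (L.compAlternatingMap (exteriorPower.ιMulti ℤ 2)).toMultilinearMap with hf
    refine ⟨(multilinearCurryLeftEquiv ℤ (fun _ : Fin 1 => UV (RatFunc k)) W).toLinearMap ∘ₗ
      f.curryLeft, ?_, ?_⟩
    · intro a
      ext c
      change (L.compAlternatingMap (exteriorPower.ιMulti ℤ 2)) (Fin.cons a (Fin.cons a c)) = 0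
      apply AlternatingMap.map_eq_zero_of_eq _ _ (i := 0) (j := 1)
      · rfl
      · simp
    · rw [hL]
      apply Finsupp.lhom_ext'
      intro x
      apply LinearMap.ext_ring
      simp only [LinearMap.comp_apply, Finsupp.lsingle_apply, delta2, ev,
        Finsupp.linearCombination_single, one_smul]
      cases x with
      | none => simp
      | some x =>
        change L (exteriorPower.ιMulti ℤ 2 ![cl (1 - x), cl x]) =
          L (exteriorPower.ιMulti ℤ 2 (Fin.cons (cl (1 - x)) (Fin.cons (cl x) (fun _ => cl x))))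
        congr 2
  | succ m ih =>
    intro W _ _ θ hθ
    have hker : ∀ α, deltaS (RatFunc k) (R (m + 2) (RatFunc k)) α = 0 → θ α = 0 := by
      intro α hα
      refine key (m + 1) W θ hθ α ?_ (fun Ψ hΨ => ev_ker_deltaS Ψ (R (m + 2) (RatFunc k))
        (fun s hs => ev_R (cur Ψ) (fun a => ?_) s hs) α (LinearMap.mem_ker.2 hα))
      · exact const_mod k
          (LinearMap.ker (deltaS (RatFunc (RatFunc k)) (R (m + 2) (RatFunc (RatFunc k))))) α (by
          rw [LinearMap.mem_ker, rm_deltaS (phi k) (R (m + 2) (RatFunc k)) _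
            (fun s hs => R_map (phi k) m s hs), hα, map_zero])
      · ext c v
        rw [cur_apply, hΨ]
        rfl
    obtain ⟨L, hL⟩ := exists_ext _ θ hker
    set θ' : ZP (RatFunc k) →ₗ[ℤ] (UV (RatFunc k) →ₗ[ℤ] W) :=
      (TensorProduct.curry L) ∘ₗ (R (m + 2) (RatFunc k)).mkQ with hθ'
    have hθ'0 : ∀ r ∈ R (m + 2) (RatFunc k), θ' r = 0 := by
      intro r hr
      have h1 : (R (m + 2) (RatFunc k)).mkQ r = 0 := by
        rw [Submodule.mkQ_apply, Submodule.Quotient.mk_eq_zero]
        exact hr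
      have h2 : θ' r = (TensorProduct.curry L) ((R (m + 2) (RatFunc k)).mkQ r) := rfl
      rw [h2, h1]
      exact map_zero _
    obtain ⟨Ψ', hΨ'1, hΨ'2⟩ := ih (UV (RatFunc k) →ₗ[ℤ] W) θ' hθ'0
    set E : MultilinearMap ℤ (fun _ : Fin m => UV (RatFunc k)) (UV (RatFunc k) →ₗ[ℤ] W) →ₗ[ℤ]
      MultilinearMap ℤ (fun _ : Fin (m + 1) => UV (RatFunc k)) W :=
      (multilinearCurryRightEquiv ℤ (fun _ : Fin (m + 1) => UV (RatFunc k)) W).symm.toLinearMap
      with hE
    refine ⟨Ψ'.compr₂ E, ?_, ?_⟩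
    · intro a
      rw [LinearMap.compr₂_apply, hΨ'1, map_zero]
    · rw [hL]
      apply Finsupp.lhom_ext'
      intro x
      apply LinearMap.ext_ring
      have h1 := congrArg (fun f => f (Finsupp.single x 1)) hΨ'2
      simp only [LinearMap.comp_apply, Finsupp.lsingle_apply, deltaS, ev,
        Finsupp.linearCombination_single, one_smul] at h1 ⊢
      cases x with
      | none => simp
      | some x =>
        have h2 := congrArg (fun f => f (cl x)) h1
        exact h2

end Pool.Agent.TH358.GP
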