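import Pool.Agent.H39R2.Gon.RMap

set_option autoImplicit false

/-!
# The Frobenius relation in Goncharov's groups of a field of characteristic `p`
-/

namespace Pool.Agent.TH358.GP

open scoped TensorProduct
open Polynomial H39Gon

theorem cl_pow {F : Type} [Field F] (n : ℕ) (hn : n ≠ 0) (x : F) : cl (x ^ n) = (n : ℤ) • cl x := by
  by_cases hx : x = 0
  · subst hx
    rw [zero_pow hn]
    have : cl (0 : F) = 0 := by simp [cl]
    rw [this, smul_zero]
  · have hx' : x ^ n ≠ 0 := pow_ne_zero n hx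
    rw [cl, dif_neg hx', cl, dif_neg hx]
    have : Units.mk0 (x ^ n) hx' = (Units.mk0 x hx) ^ n := by
      ext
      simp
    rw [this]
    simp

theorem spec_poly {F : Type} [Field F] (t0 : F) (P : F[X]) :
    spec F t0 (some (algebraMap F[X] (RatFunc F) P)) = some (P.eval t0) := by
  rw [rm_spec_eq t0 P 1 one_ne_zero isCoprime_one_right _ (by rw [map_one, div_one])]
  simp

theorem tmul_aux {F : Type} [Field F] (S : Submodule ℤ (ZP F)) (a b : ℤ) (x : ZP F ⧸ S) (y : UV F) :
    (a • x) ⊗ₜ[ℤ] (b • y) = (a * b) • (x ⊗ₜ[ℤ] y) := by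
  have h1 : x ⊗ₜ[ℤ] (b • y) = b • (x ⊗ₜ[ℤ] y) := TensorProduct.tmul_smul b x y
  have h2 : (a • x) ⊗ₜ[ℤ] (b • y) = a • (x ⊗ₜ[ℤ] (b • y)) := (TensorProduct.smul_tmul' a x _).symm
  rw [h2, h1, smul_smul]

/-- the homotopy `x (1 - t)` -/
theorem homotopy {F : Type} [Field F] (p : ℕ) (hp : p ≠ 0) (A : Submodule ℤ (ZP (RatFunc F)))
    (c : ℤ) (h : ∀ g : RatFunc F, (Finsupp.single (some (g ^ p)) 1 - c • Finsupp.single (some g) 1 :
      ZP (RatFunc F)) ∈ A) (x : P1 F) :
    (Finsupp.single (x.map (· ^ p)) 1 - c • Finsupp.single x 1 : ZP F) ∈ relSpan F A := by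
  have hnone : (Finsupp.single none 1 : ZP F) ∈ relSpan F A :=
    Submodule.subset_span (Or.inl (Or.inr rfl))
  have hzero : (Finsupp.single (some 0) 1 : ZP F) ∈ relSpan F A :=
    Submodule.subset_span (Or.inl (Or.inl rfl))
  cases x with
  | none => exact Submodule.sub_mem _ hnone (Submodule.smul_mem _ _ hnone)
  | some x =>
    let P : F[X] := C x * (1 - X)
    have h1 := h (algebraMap F[X] (RatFunc F) P)
    have h2 : specZ F 0 (Finsupp.single (some (algebraMap F[X] (RatFunc F) P ^ p)) 1 -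
        c • Finsupp.single (some (algebraMap F[X] (RatFunc F) P)) 1) -
      specZ F 1 (Finsupp.single (some (algebraMap F[X] (RatFunc F) P ^ p)) 1 -
        c • Finsupp.single (some (algebraMap F[X] (RatFunc F) P)) 1) ∈ relSpan F A :=
      Submodule.subset_span (Or.inr ⟨_, h1, rfl⟩)
    have h3 : ∀ t0 : F, specZ F t0 (Finsupp.single (some (algebraMap F[X] (RatFunc F) P ^ p)) 1 -
        c • Finsupp.single (some (algebraMap F[X] (RatFunc F) P)) 1) =
        Finsupp.single (some (P.eval t0 ^ p)) 1 - c • Finsupp.single (some (P.eval t0)) 1 := by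
      intro t0
      rw [map_sub, map_smul, ← map_pow]
      unfold specZ
      rw [Finsupp.lmapDomain_apply, Finsupp.lmapDomain_apply, Finsupp.mapDomain_single,
        Finsupp.mapDomain_single, spec_poly, spec_poly, eval_pow]
    rw [h3, h3] at h2
    have e0 : P.eval 0 = x := by simp [P]
    have e1 : P.eval 1 = 0 := by simp [P]
    rw [e0, e1, zero_pow hp] at h2
    have h4 : (Finsupp.single (Option.map (· ^ p) (some x)) 1 - c • Finsupp.single (some x) 1 :
        ZP F) = (Finsupp.single (some (x ^ p)) 1 - c • Finsupp.single (some x) 1 -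
          (Finsupp.single (some 0) 1 - c • Finsupp.single (some 0) 1)) +
          (Finsupp.single (some 0) 1 - c • Finsupp.single (some 0) 1) := by
      rw [sub_add_cancel]; rfl
    rw [h4]
    exact Submodule.add_mem _ h2 (Submodule.sub_mem _ hzero (Submodule.smul_mem _ _ hzero))

/-- In characteristic `p`: `{x^p} - p^n {x} ∈ R_n(F)`, `n ≥ 2`. -/
theorem frob_rel (p : ℕ) [hp : Fact p.Prime] (m : ℕ) : ∀ (F : Type) [Field F] [CharP F p]
    (x : P1 F), (Finsupp.single (x.map (· ^ p)) 1 - (p : ℤ) ^ (m + 2) • Finsupp.single x 1 : ZP F) ∈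
      R (m + 2) F := by
  have hp0 : p ≠ 0 := hp.out.ne_zero
  induction m with
  | zero =>
    intro F _ _ x
    have : CharP (RatFunc F) p := charP_of_injective_ringHom (RatFunc.C_injective (K := F)) p
    refine homotopy p hp0 _ _ (fun g => ?_) x
    rw [LinearMap.mem_ker, map_sub, map_smul]
    unfold delta2
    rw [Finsupp.linearCombination_single, Finsupp.linearCombination_single, one_smul, one_smul]
    change exteriorPower.ιMulti ℤ 2 ![cl (1 - g ^ p), cl (g ^ p)] -
      (p : ℤ) ^ 2 • exteriorPower.ιMulti ℤ 2 ![cl (1 - g), cl g] = 0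
    have h1 : (1 : RatFunc F) - g ^ p = (1 - g) ^ p := by
      rw [sub_pow_char, one_pow]
    rw [h1, cl_pow p hp0, cl_pow p hp0]
    have h2 : (![(p : ℤ) • cl (1 - g), (p : ℤ) • cl g] : Fin 2 → UV (RatFunc F)) =
        fun i => (fun _ : Fin 2 => (p : ℤ)) i • (![cl (1 - g), cl g] : Fin 2 → UV (RatFunc F)) i := by
      funext i
      fin_cases i <;> rfl
    rw [h2]
    have h3 := (exteriorPower.ιMulti ℤ (M := UV (RatFunc F)) 2).toMultilinearMap.map_smul_univ
      (fun _ : Fin 2 => (p : ℤ)) ![cl (1 - g), cl g]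
    change exteriorPower.ιMulti ℤ 2 _ = _ at h3
    rw [h3]
    simp
  | succ m ih =>
    intro F _ _ x
    have : CharP (RatFunc F) p := charP_of_injective_ringHom (RatFunc.C_injective (K := F)) p
    refine homotopy p hp0 _ _ (fun g => ?_) x
    rw [LinearMap.mem_ker, map_sub, map_smul, rm_deltaS_some, rm_deltaS_some, one_smul, one_smul]
    have h1 := ih (RatFunc F) (some g)
    have h2 : (R (m + 2) (RatFunc F)).mkQ (Finsupp.single (some (g ^ p)) 1) =
        (p : ℤ) ^ (m + 2) • (R (m + 2) (RatFunc F)).mkQ (Finsupp.single (some g) 1) := by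
      rw [← map_smul, ← sub_eq_zero, ← map_sub, Submodule.mkQ_apply, Submodule.Quotient.mk_eq_zero]
      exact h1
    rw [h2, cl_pow p hp0, sub_eq_zero, show (p : ℤ) ^ (m + 1 + 2) = (p : ℤ) ^ (m + 2) * p from
      pow_succ _ _]
    exact tmul_aux _ _ _ _ _

end Pool.Agent.TH358.GP
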