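import Pool.Agent.TH358.GP.Frob
import Pool.Agent.H39R2.Gon.E1
import Pool.Agent.H39R2.Gon.E2

set_option autoImplicit false

/-!
# Functoriality of the terms of Goncharov's complexes
-/

namespace Pool.Agent.TH358.GP

open scoped TensorProduct
open Polynomial H39Gon

variable {F F' F'' : Type} [Field F] [Field F'] [Field F'']

/-- `b ↦ (w ↦ 1 ⊗ (b ⊗ φ w))` -/
noncomputable def pmH (φ : F →+* F') (m j : ℕ) :
    B (m + 2) F' →ₗ[ℤ] ((⋀[ℤ]^j (UV F)) →ₗ[ℤ] TQ F' (m + 2) j) where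
  toFun b := (e1one (M := B (m + 2) F' ⊗[ℤ] (⋀[ℤ]^j (UV F')))) ∘ₗ (e1tens b) ∘ₗ
    (exteriorPower.map j (rmU φ))
  map_add' b b' := by ext w; simp [e1tens_add]
  map_smul' c b := by ext w; simp [e1tens_smul]

theorem pmH_apply (φ : F →+* F') (m j : ℕ) (x : P1 F') (y : Fin j → UV F) :
    pmH φ m j (bcl (m + 2) x) (exteriorPower.ιMulti ℤ j y) =
      tq F' (m + 2) j x (fun i => rmU φ (y i)) := by
  change (e1one (M := B (m + 2) F' ⊗[ℤ] (⋀[ℤ]^j (UV F')))) ((e1tens (bcl (m + 2) x))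
    (exteriorPower.map j (rmU φ) (exteriorPower.ιMulti ℤ j y))) = _
  rw [exteriorPower.map_apply_ιMulti, e1tens_apply, e1one_apply]
  rfl

/-- the induced map of the terms of the complexes -/
theorem exists_tm (φ : F →+* F') (m j : ℕ) : ∃ T : TQ F (m + 2) j →ₗ[ℚ] TQ F' (m + 2) j,
    ∀ (x : P1 F) (y : Fin j → UV F),
      T (tq F (m + 2) j x y) = tq F' (m + 2) j (x.map φ) (fun i => rmU φ (y i)) := by
  have h : ∀ r ∈ R (m + 2) F,
      ((pmH φ m j) ∘ₗ (R (m + 2) F').mkQ ∘ₗ (rmM φ)) r = 0 := by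
    intro r hr
    rw [LinearMap.comp_apply, LinearMap.comp_apply]
    have h1 : (R (m + 2) F').mkQ (rmM φ r) = 0 := by
      rw [Submodule.mkQ_apply, Submodule.Quotient.mk_eq_zero]
      exact R_map φ m r hr
    rw [h1, map_zero]
  refine ⟨e1lift _ h, fun x y => ?_⟩
  rw [e1lift_apply, LinearMap.comp_apply, LinearMap.comp_apply, rmM_single]
  exact pmH_apply φ m j (x.map φ) y

/-- the induced map of the last terms -/
theorem exists_lm (φ : F →+* F') (j : ℕ) : ∃ T : LQ F j →ₗ[ℚ] LQ F' j,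
    ∀ y : Fin j → UV F, T (lq F j y) = lq F' j (fun i => rmU φ (y i)) := by
  refine ⟨LinearMap.baseChange ℚ (exteriorPower.map j (rmU φ)), fun y => ?_⟩
  unfold lq
  rw [LinearMap.baseChange_tmul, exteriorPower.map_apply_ιMulti]
  rfl

section frob

variable (p : ℕ) [hp : Fact p.Prime] [CharP F p]

theorem bcl_frob (m : ℕ) (x : P1 F) :
    bcl (m + 2) (x.map (frobenius F p)) = ((p : ℤ) ^ (m + 2)) • bcl (m + 2) x := by
  unfold bcl
  rw [← map_smul, ← sub_eq_zero, ← map_sub, Submodule.mkQ_apply, Submodule.Quotient.mk_eq_zero]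
  exact frob_rel p m F x

theorem rmU_frob (y : UV F) : rmU (frobenius F p) y = (p : ℤ) • y := by
  change Additive.ofMul (Units.map (frobenius F p : F →* F) y.toMul) = (p : ℤ) • y
  have h : Units.map (frobenius F p : F →* F) y.toMul = y.toMul ^ p := by
    ext
    rfl
  rw [h]
  simp

theorem ext_frob (j : ℕ) (y : Fin j → UV F) :
    exteriorPower.ιMulti ℤ j (fun i => rmU (frobenius F p) (y i)) =
      ((p : ℤ) ^ j) • exteriorPower.ιMulti ℤ j y := by
  have h3 := (exteriorPower.ιMulti ℤ (M := UV F) j).toMultilinearMap.map_smul_univ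
    (fun _ : Fin j => (p : ℤ)) y
  change exteriorPower.ιMulti ℤ j _ = _ at h3
  rw [Finset.prod_const, Finset.card_univ, Fintype.card_fin] at h3
  have h4 : (fun i => rmU (frobenius F p) (y i)) = fun i => (p : ℤ) • y i := by
    funext i
    exact rmU_frob p (y i)
  rw [h4]
  exact h3

theorem one_zsmul' {M : Type} [AddCommGroup M] (c : ℤ) (x : M) :
    (1 : ℚ) ⊗ₜ[ℤ] (c • x) = (c : ℚ) • ((1 : ℚ) ⊗ₜ[ℤ] x) := by
  rw [TensorProduct.tmul_smul, TensorProduct.smul_tmul', TensorProduct.smul_tmul']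
  congr 1

theorem tq_frob (m j : ℕ) (x : P1 F) (y : Fin j → UV F) :
    tq F (m + 2) j (x.map (frobenius F p)) (fun i => rmU (frobenius F p) (y i)) =
      ((p : ℚ) ^ (m + 2 + j)) • tq F (m + 2) j x y := by
  unfold tq
  rw [bcl_frob, ext_frob]
  have h1 : ((p : ℤ) ^ (m + 2) • bcl (m + 2) x) ⊗ₜ[ℤ] ((p : ℤ) ^ j • exteriorPower.ιMulti ℤ j y) =
      ((p : ℤ) ^ (m + 2 + j)) • (bcl (m + 2) x ⊗ₜ[ℤ] exteriorPower.ιMulti ℤ j y) := by
    have h1 : bcl (m + 2) x ⊗ₜ[ℤ] ((p : ℤ) ^ j • exteriorPower.ιMulti ℤ j y) =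
      (p : ℤ) ^ j • (bcl (m + 2) x ⊗ₜ[ℤ] exteriorPower.ιMulti ℤ j y) := TensorProduct.tmul_smul _ _ _
    have h2 : ((p : ℤ) ^ (m + 2) • bcl (m + 2) x) ⊗ₜ[ℤ] ((p : ℤ) ^ j • exteriorPower.ιMulti ℤ j y) =
      (p : ℤ) ^ (m + 2) • (bcl (m + 2) x ⊗ₜ[ℤ] ((p : ℤ) ^ j • exteriorPower.ιMulti ℤ j y)) :=
      (TensorProduct.smul_tmul' _ _ _).symm
    rw [h2, h1, smul_smul, ← pow_add]
  rw [h1]
  have h2 := one_zsmul' ((p : ℤ) ^ (m + 2 + j)) (bcl (m + 2) x ⊗ₜ[ℤ] exteriorPower.ιMulti ℤ j y)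
  push_cast at h2
  exact h2

theorem iter_succ (k : ℕ) :
    iterateFrobenius F p (k + 1) = (frobenius F p).comp (iterateFrobenius F p k) := by
  ext x
  rw [RingHom.comp_apply, iterateFrobenius_def, iterateFrobenius_def, frobenius_def, pow_succ,
    pow_mul]

theorem tq_iter (m j k : ℕ) (x : P1 F) (y : Fin j → UV F) :
    tq F (m + 2) j (x.map (iterateFrobenius F p k)) (fun i => rmU (iterateFrobenius F p k) (y i)) =
      (((p : ℚ) ^ (m + 2 + j)) ^ k) • tq F (m + 2) j x y := by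
  induction k with
  | zero =>
    have h1 : iterateFrobenius F p 0 = RingHom.id F := by
      ext x
      rw [iterateFrobenius_def, pow_zero, pow_one, RingHom.id_apply]
    rw [h1, pow_zero, one_smul]
    congr 1
    cases x <;> rfl
  | succ k ih =>
    rw [iter_succ]
    have h1 : x.map ((frobenius F p).comp (iterateFrobenius F p k)) =
        (x.map (iterateFrobenius F p k)).map (frobenius F p) := by
      rw [Option.map_map]
      rfl
    rw [h1]
    refine (tq_frob p m j (x.map (iterateFrobenius F p k))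
      (fun i => rmU (iterateFrobenius F p k) (y i))).trans ?_
    rw [ih, smul_smul, pow_succ']

theorem lq_frob (j : ℕ) (y : Fin j → UV F) :
    lq F j (fun i => rmU (frobenius F p) (y i)) = ((p : ℚ) ^ j) • lq F j y := by
  unfold lq
  rw [ext_frob]
  have h2 := one_zsmul' ((p : ℤ) ^ j) (exteriorPower.ιMulti ℤ j y)
  push_cast at h2
  exact h2

theorem lq_iter (j k : ℕ) (y : Fin j → UV F) :
    lq F j (fun i => rmU (iterateFrobenius F p k) (y i)) = (((p : ℚ) ^ j) ^ k) • lq F j y := by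
  induction k with
  | zero =>
    have h1 : iterateFrobenius F p 0 = RingHom.id F := by
      ext x
      rw [iterateFrobenius_def, pow_zero, pow_one, RingHom.id_apply]
    rw [h1, pow_zero, one_smul]
    rfl
  | succ k ih =>
    rw [iter_succ]
    refine (lq_frob p j (fun i => rmU (iterateFrobenius F p k) (y i))).trans ?_
    rw [ih, smul_smul, pow_succ']

end frob

end Pool.Agent.TH358.GP
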