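import Pool.Agent.TH358.GP.Defs
import Pool.Agent.TH358.GP.Funct
import Pool.Agent.H39R2.GonP.Bridge

set_option autoImplicit false

/-!
# Goncharov's groups of fields of characteristic `p`
-/

namespace Pool.Agent.TH358.GP

open GonP
open H39Gon (rmM rmM_single rmU R_map)

variable {F F' F'' : Type} [Field F] [Field F'] [Field F'']

/-! ### the relation groups -/

theorem R_one : R 1 F = R1 F := by
  unfold R
  rw [if_pos le_rfl]

theorem rmM_gen (φ : F →+* F') (x : P1 F) : rmM φ (gen x) = gen (x.map φ) := rmM_single φ x 1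

theorem R1_map (φ : F →+* F') (r : ZP F) (hr : r ∈ R1 F) : rmM φ r ∈ R1 F' := by
  unfold R1 at hr
  induction hr using AddSubgroup.closure_induction with
  | mem r hr =>
    rcases hr with hr | ⟨x, y, hx, hy, rfl⟩
    · rcases hr with rfl | rfl
      · rw [rmM_gen, Option.map_some, map_zero]
        exact AddSubgroup.subset_closure (Or.inl (Or.inl rfl))
      · rw [rmM_gen]
        exact AddSubgroup.subset_closure (Or.inl (Or.inr rfl))
    · rw [map_sub, map_add, rmM_gen, rmM_gen, rmM_gen, Option.map_some, Option.map_some,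
        Option.map_some, map_mul]
      exact AddSubgroup.subset_closure (Or.inr ⟨φ x, φ y, (map_ne_zero φ).2 hx,
        (map_ne_zero φ).2 hy, rfl⟩)
  | zero => rw [map_zero]; exact (R1 F').zero_mem
  | add a b _ _ ha hb => rw [map_add]; exact (R1 F').add_mem ha hb
  | neg a _ ha => rw [map_neg]; exact (R1 F').neg_mem ha

theorem R_mapG (φ : F →+* F') (n : ℕ) (hn : 1 ≤ n) (r : ZP F) (hr : r ∈ R n F) :
    rmM φ r ∈ R n F' := by
  rcases Nat.lt_or_ge n 2 with h | h
  · have h1 : n = 1 := by omega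
    subst h1
    rw [R_one] at hr ⊢
    exact R1_map φ r hr
  · obtain ⟨m, rfl⟩ := Nat.exists_eq_add_of_le' h
    rw [R_eq] at hr ⊢
    exact R_map φ m r hr

section frob

variable (p : ℕ) [hp : Fact p.Prime] [CharP F p]

theorem pow_mem_R1 (x : F) (hx : x ≠ 0) (k : ℕ) (hk : 1 ≤ k) :
    (gen (some (x ^ k)) - (k : ℤ) • gen (some x) : ZP F) ∈ R1 F := by
  induction k, hk using Nat.le_induction with
  | base => simp
  | succ k hk ih =>
    have h1 : (gen (some (x ^ k)) + gen (some x) - gen (some (x ^ k * x)) : ZP F) ∈ R1 F :=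
      AddSubgroup.subset_closure (Or.inr ⟨x ^ k, x, pow_ne_zero k hx, hx, rfl⟩)
    have h2 := (R1 F).sub_mem ih h1
    have h3 : (gen (some (x ^ (k + 1))) - ((k + 1 : ℕ) : ℤ) • gen (some x) : ZP F) =
        gen (some (x ^ k)) - (k : ℤ) • gen (some x) -
          (gen (some (x ^ k)) + gen (some x) - gen (some (x ^ k * x))) := by
      rw [pow_succ, Nat.cast_succ, add_smul, one_smul]
      abel
    rw [h3]
    exact h2

theorem frob_memR (n : ℕ) (hn : 1 ≤ n) (x : P1 F) :
    (gen (x.map (frobenius F p)) - ((p : ℤ) ^ n) • gen x : ZP F) ∈ R n F := by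
  rcases Nat.lt_or_ge n 2 with h | h
  · have h1 : n = 1 := by omega
    subst h1
    rw [R_one, pow_one]
    have hnone : (gen none : ZP F) ∈ R1 F := AddSubgroup.subset_closure (Or.inl (Or.inr rfl))
    have hzero : (gen (some 0) : ZP F) ∈ R1 F := AddSubgroup.subset_closure (Or.inl (Or.inl rfl))
    cases x with
    | none => exact (R1 F).sub_mem hnone ((R1 F).zsmul_mem hnone _)
    | some x =>
      by_cases hx : x = 0
      · subst hx
        rw [Option.map_some, map_zero]
        exact (R1 F).sub_mem hzero ((R1 F).zsmul_mem hzero _)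
      · exact pow_mem_R1 x hx p hp.out.one_le
  · obtain ⟨m, rfl⟩ := Nat.exists_eq_add_of_le' h
    rw [R_eq]
    exact frob_rel p m F x

end frob

/-! ### the maps of the groups `B_n` -/

theorem b_mk {n : ℕ} (b : B n F) : ∃ a : ZP F, b = toQuo (R n F) a := by
  obtain ⟨a, ha⟩ := QuotientAddGroup.mk_surjective (s := R n F) b
  exact ⟨a, ha.symm⟩

/-- the induced map on `B_n` -/
noncomputable def bG (φ : F →+* F') (n : ℕ) (hn : 1 ≤ n) : B n F →+ B n F' :=
  QuotientAddGroup.map (R n F) (R n F') (rmM φ).toAddMonoidHom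
    (fun r hr => R_mapG φ n hn r hr)

theorem bG_mk (φ : F →+* F') (n : ℕ) (hn : 1 ≤ n) (a : ZP F) :
    bG φ n hn (toQuo (R n F) a) = toQuo (R n F') (rmM φ a) := rfl

theorem bG_gen (φ : F →+* F') (n : ℕ) (hn : 1 ≤ n) (x : P1 F) :
    bG φ n hn (toQuo (R n F) (gen x)) = toQuo (R n F') (gen (x.map φ)) := by
  rw [bG_mk, rmM_gen]

theorem toQuo_add {A : Type} [AddCommGroup A] (S : AddSubgroup A) (a b : A) :
    toQuo S (a + b) = toQuo S a + toQuo S b := rfl

theorem toQuo_zsmul {A : Type} [AddCommGroup A] (S : AddSubgroup A) (c : ℤ) (a : A) :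
    toQuo S (c • a) = c • toQuo S a := rfl

theorem toQuo_zero {A : Type} [AddCommGroup A] (S : AddSubgroup A) :
    toQuo S (0 : A) = 0 := rfl

theorem toQuo_eq {A : Type} [AddCommGroup A] (S : AddSubgroup A) (a b : A) (h : a - b ∈ S) :
    toQuo S a = toQuo S b := by
  have h1 : (QuotientAddGroup.mk a : A ⧸ S) = QuotientAddGroup.mk b := by
    rw [QuotientAddGroup.eq, ← S.neg_mem_iff]
    have : -(-a + b) = a - b := by abel
    rw [this]
    exact h
  exact h1

theorem b_ext' {n : ℕ} {L : Type} [AddCommGroup L] (f g : B n F →+ L)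
    (h : ∀ x : P1 F, f (toQuo (R n F) (gen x)) = g (toQuo (R n F) (gen x))) (b : B n F) :
    f b = g b := by
  obtain ⟨a, rfl⟩ := b_mk b
  induction a using Finsupp.induction_linear with
  | zero => rw [toQuo_zero, map_zero, map_zero]
  | add a c ha hc => rw [toQuo_add, map_add, map_add, ha, hc]
  | single x c =>
    have h1 : (Finsupp.single x c : ZP F) = c • gen x := by
      unfold gen
      rw [Finsupp.smul_single]
      simp
    rw [h1, toQuo_zsmul, map_zsmul, map_zsmul, h x]

theorem bG_comp (ψ : F' →+* F'') (φ : F →+* F') (n : ℕ) (hn : 1 ≤ n) (b : B n F) :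
    bG (ψ.comp φ) n hn b = bG ψ n hn (bG φ n hn b) := by
  refine b_ext' (bG (ψ.comp φ) n hn) ((bG ψ n hn).comp (bG φ n hn)) (fun x => ?_) b
  rw [AddMonoidHom.comp_apply, bG_gen, bG_gen, bG_gen, Option.map_map]
  rfl

theorem bG_id (n : ℕ) (hn : 1 ≤ n) (b : B n F) : bG (RingHom.id F) n hn b = b := by
  refine b_ext' (bG (RingHom.id F) n hn) (AddMonoidHom.id _) (fun x => ?_) b
  rw [bG_gen, AddMonoidHom.id_apply]
  cases x <;> rfl

section frob

variable (p : ℕ) [hp : Fact p.Prime] [CharP F p]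

theorem bG_frob (n : ℕ) (hn : 1 ≤ n) (b : B n F) : bG (frobenius F p) n hn b = p ^ n • b := by
  refine b_ext' (bG (frobenius F p) n hn) ((p ^ n) • AddMonoidHom.id _) (fun x => ?_) b
  rw [bG_gen]
  change _ = p ^ n • toQuo (R n F) (gen x)
  rw [toQuo_eq _ _ _ (frob_memR p n hn x), toQuo_zsmul, ← natCast_zsmul]
  push_cast
  rfl

theorem bG_iter (n : ℕ) (hn : 1 ≤ n) (k : ℕ) (b : B n F) :
    bG (iterateFrobenius F p k) n hn b = p ^ (k * n) • b := by
  induction k with
  | zero =>
    have h1 : iterateFrobenius F p 0 = RingHom.id F := by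
      ext x
      rw [iterateFrobenius_def, pow_zero, pow_one, RingHom.id_apply]
    rw [h1, bG_id, zero_mul, pow_zero, one_smul]
  | succ k ih =>
    rw [iter_succ, bG_comp, ih, bG_frob, ← mul_smul, ← pow_add]
    congr 2
    ring

/-- perfect fields -/
theorem perfect_div (h : ∀ x : F, ∃ y : F, y ^ p = x) (n : ℕ) (hn : 1 ≤ n) :
    Function.Bijective (fun b : B n F => p • b) := by
  have hb : Function.Bijective (frobenius F p) := ⟨(frobenius F p).injective, h⟩
  let e : F ≃+* F := RingEquiv.ofBijective (frobenius F p) hb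
  have h1 : (e.symm : F →+* F).comp (frobenius F p) = RingHom.id F := by
    ext x
    exact e.symm_apply_apply x
  have h2 : ∀ b : B n F, bG (e.symm : F →+* F) n hn (p ^ n • b) = b := by
    intro b
    rw [← bG_frob p n hn, ← bG_comp, h1, bG_id]
  obtain ⟨m, rfl⟩ := Nat.exists_eq_add_of_le' hn
  constructor
  · intro a b hab
    have hab' : p • a = p • b := hab
    have h3 : p ^ (m + 1) • a = p ^ (m + 1) • b := by
      rw [pow_succ, mul_smul, mul_smul, hab']
    rw [← h2 a, h3, h2 b]
  · intro b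
    refine ⟨p ^ m • bG (e.symm : F →+* F) (m + 1) hn b, ?_⟩
    change p • p ^ m • _ = b
    rw [← mul_smul, ← pow_succ', ← map_nsmul]
    exact h2 b

/-- unions of finite fields: the order of `{x}_n` -/
theorem gen_kill (x : F) (r : ℕ) (hr : 1 ≤ r) (hx : x ^ p ^ r = x) (n : ℕ) (hn : 1 ≤ n) :
    (p ^ (r * n) - 1) • toQuo (R n F) (gen (some x)) = 0 := by
  have h2 := bG_iter p n hn r (toQuo (R n F) (gen (some x)))
  rw [bG_gen, Option.map_some, iterateFrobenius_def, hx] at h2
  have h4 : 1 ≤ p ^ (r * n) := Nat.one_le_pow _ _ hp.out.pos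
  set b := toQuo (R n F) (gen (some x)) with hb
  have h5 : (p ^ (r * n) - 1) • b + b = p ^ (r * n) • b := by
    nth_rewrite 2 [← one_smul ℕ b]
    rw [← add_smul, Nat.sub_add_cancel h4]
  rw [← h2] at h5
  exact add_eq_right.1 h5

end frob

/-- finite fields -/
theorem finite_kill (n : ℕ) (hn : 1 ≤ n) (hF : Finite F) (b : B n F) :
    (Nat.card F ^ n - 1) • b = 0 := by
  classical
  have := Fintype.ofFinite F
  obtain ⟨p, hpF⟩ := CharP.exists F
  obtain ⟨r, hp', hr⟩ := FiniteField.card F p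
  have hp : Fact p.Prime := ⟨hp'⟩
  have h1 : iterateFrobenius F p r = RingHom.id F := by
    ext x
    rw [iterateFrobenius_def, ← hr, RingHom.id_apply, FiniteField.pow_card]
  have h2 := bG_iter p n hn r b
  rw [h1, bG_id] at h2
  have h3 : Nat.card F ^ n = p ^ ((r : ℕ) * n) := by
    rw [Nat.card_eq_fintype_card, hr, ← pow_mul]
  have h4 : 1 ≤ p ^ ((r : ℕ) * n) := Nat.one_le_pow _ _ hp.out.pos
  have h5 : (p ^ ((r : ℕ) * n) - 1) • b + b = p ^ ((r : ℕ) * n) • b := by
    nth_rewrite 2 [← one_smul ℕ b]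
    rw [← add_smul, Nat.sub_add_cancel h4]
  rw [← h2] at h5
  rw [h3]
  exact add_eq_right.1 h5

end Pool.Agent.TH358.GP
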