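import Pool.Agent.TH358.GP.EvC

set_option autoImplicit false

/-!
# Fields which can be contracted to constants
-/

namespace Pool.Agent.TH358.GP

open scoped TensorProduct
open Polynomial H39Gon H39Gon.C4 H39Gon.TC2

/-! ### values of quotients -/

theorem spec_div {F : Type} [Field F] (t0 : F) (a b : F[X]) (hb : b.eval t0 ≠ 0) :
    spec F t0 (some (algebraMap F[X] (RatFunc F) a / algebraMap F[X] (RatFunc F) b)) =
      some (a.eval t0 / b.eval t0) := by
  classical
  have hb0 : b ≠ 0 := by
    rintro rfl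
    exact hb (by simp)
  set f : RatFunc F := algebraMap F[X] (RatFunc F) a / algebraMap F[X] (RatFunc F) b with hf
  have hA : Function.Injective (algebraMap F[X] (RatFunc F)) := IsFractionRing.injective _ _
  have hb' : algebraMap F[X] (RatFunc F) b ≠ 0 := fun h => hb0 (hA (by rw [h, map_zero]))
  have hd' : algebraMap F[X] (RatFunc F) f.denom ≠ 0 := fun h =>
    f.denom_ne_zero (hA (by rw [h, map_zero]))
  have h1 : f.num * b = a * f.denom := by
    apply hA
    have h2 := f.num_div_denom
    rw [map_mul, map_mul]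
    rw [div_eq_iff hd'] at h2
    rw [h2, hf]
    field_simp
  have h3 : f.denom ∣ b := by
    have h4 : f.denom ∣ f.num * b := by rw [h1]; exact Dvd.intro_left a rfl
    exact (f.isCoprime_num_denom.symm).dvd_of_dvd_mul_left h4
  have h5 : f.denom.eval t0 ≠ 0 := by
    intro h
    obtain ⟨c, hc⟩ := h3
    apply hb
    rw [hc, eval_mul, h, zero_mul]
  have h6 := congrArg (Polynomial.eval t0) h1
  rw [eval_mul, eval_mul] at h6
  have h7 : spec F t0 (some f) = some (f.num.eval t0 / f.denom.eval t0) := by simp [spec, h5]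
  rw [h7]
  congr 1
  rw [div_eq_div_iff h5 hb]
  exact h6

theorem spec_some_div {F : Type} [Field F] (t0 : F) (u v : RatFunc F) (a b : F)
    (hu : spec F t0 (some u) = some a) (hv : spec F t0 (some v) = some b) (hb : b ≠ 0) :
    spec F t0 (some (u / v)) = some (a / b) := by
  classical
  have hA : Function.Injective (algebraMap F[X] (RatFunc F)) := IsFractionRing.injective _ _
  have hne : ∀ w : RatFunc F, algebraMap F[X] (RatFunc F) w.denom ≠ 0 := fun w h =>
    w.denom_ne_zero (hA (by rw [h, map_zero]))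
  have key : ∀ (w : RatFunc F) (c : F), spec F t0 (some w) = some c →
      w.denom.eval t0 ≠ 0 ∧ w.num.eval t0 = c * w.denom.eval t0 := by
    intro w c hw
    by_cases h : w.denom.eval t0 = 0
    · simp [spec, h] at hw
    · refine ⟨h, ?_⟩
      have h1 : spec F t0 (some w) = some (w.num.eval t0 / w.denom.eval t0) := by simp [spec, h]
      rw [h1] at hw
      rw [← Option.some.inj hw, div_mul_cancel₀ _ h]
  obtain ⟨hu1, hu2⟩ := key u a hu
  obtain ⟨hv1, hv2⟩ := key v b hv
  have hvn : v.num.eval t0 ≠ 0 := by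
    rw [hv2]; exact mul_ne_zero hb hv1
  have hvn0 : algebraMap F[X] (RatFunc F) v.num ≠ 0 := by
    intro h
    have : v.num = 0 := hA (by rw [h, map_zero])
    exact hvn (by rw [this, eval_zero])
  have h1 : u / v = algebraMap F[X] (RatFunc F) (u.num * v.denom) /
      algebraMap F[X] (RatFunc F) (u.denom * v.num) := by
    rw [map_mul, map_mul]
    conv_lhs => rw [← u.num_div_denom, ← v.num_div_denom]
    have := hne u
    have := hne v
    field_simp
  rw [h1, spec_div t0 _ _ (by rw [eval_mul]; exact mul_ne_zero hu1 hvn), eval_mul, eval_mul, hu2,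
    hv2]
  congr 1
  field_simp

/-! ### the path property -/

/-- For every finite set of elements of `F` there is a homomorphism `σ : F → F(t)` with
`σ(f)(1) = f` and `σ(f)(0) = ∞` or `σ(f)(0)` in a finite subfield, for the elements `f` of the
set. -/
def PathProp (F : Type) [Field F] (p : ℕ) : Prop :=
  ∀ S : Finset F, ∃ σ : F →+* RatFunc F, ∀ f ∈ S, spec F 1 (some (σ f)) = some f ∧
    (spec F 0 (some (σ f)) = none ∨
      ∃ c : F, spec F 0 (some (σ f)) = some c ∧ ∃ r : ℕ, 1 ≤ r ∧ c ^ p ^ r = c)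

theorem tors_of_pow {F : Type} [Field F] (p : ℕ) [Fact p.Prime] [CharP F p] (m : ℕ) (c : F)
    (r : ℕ) (hr : 1 ≤ r) (hc : c ^ p ^ r = c) :
    ∃ N : ℕ, 0 < N ∧ N • (Finsupp.single (some c) 1 : ZP F) ∈ R (m + 2) F := by
  have h := frob_iter (F := F) p m c r
  rw [hc] at h
  have hp : 2 ≤ p := (Fact.out : p.Prime).two_le
  have h1 : 1 < (p ^ (m + 2)) ^ r := by
    rw [← pow_mul]
    exact Nat.one_lt_pow (by positivity) (by omega)
  refine ⟨(p ^ (m + 2)) ^ r - 1, by omega, ?_⟩
  have h2 := Submodule.neg_mem _ h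
  convert h2 using 1
  rw [← natCast_zsmul, Nat.cast_sub h1.le]
  push_cast
  rw [sub_smul, one_smul, neg_sub]

theorem path_gen {F : Type} [Field F] (p : ℕ) [Fact p.Prime] [CharP F p] (h : PathProp F p)
    (m : ℕ) (A' : Submodule ℤ (ZP (RatFunc F))) (hR : relSpan F A' = R (m + 2) F) (α : ZP F)
    (hα : ∀ σ : F →+* RatFunc F, rmM σ α ∈ A') :
    ∃ N : ℕ, 0 < N ∧ N • α ∈ R (m + 2) F := by
  classical
  obtain ⟨σ, hσ⟩ := h (α.support.biUnion (fun x => x.toFinset))
  have hσ1 : ∀ f : F, some f ∈ α.support → spec F 1 (some (σ f)) = some f ∧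
    (spec F 0 (some (σ f)) = none ∨
      ∃ c : F, spec F 0 (some (σ f)) = some c ∧ ∃ r : ℕ, 1 ≤ r ∧ c ^ p ^ r = c) := by
    intro f hf
    apply hσ
    rw [Finset.mem_biUnion]
    exact ⟨some f, hf, by simp⟩
  have e1 : ∀ t0 : F, specZ F t0 (rmM σ α) =
      ∑ x ∈ α.support, α x • (Finsupp.single (spec F t0 (x.map σ)) 1 : ZP F) := by
    intro t0
    conv_lhs => rw [← Finsupp.sum_single α]
    rw [Finsupp.sum, map_sum, map_sum]
    refine Finset.sum_congr rfl fun x _ => ?_
    rw [rmM_single, specZ, Finsupp.lmapDomain_apply, Finsupp.mapDomain_single]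
    simp
  have e2 : specZ F 1 (rmM σ α) = α := by
    rw [e1]
    conv_rhs => rw [← Finsupp.sum_single α]
    rw [Finsupp.sum]
    refine Finset.sum_congr rfl fun x hx => ?_
    cases x with
    | none => simp [spec]
    | some f =>
      rw [Option.map_some, (hσ1 f hx).1]
      simp
  have e3 : ∃ N : ℕ, 0 < N ∧ N • specZ F 0 (rmM σ α) ∈ R (m + 2) F := by
    rw [e1]
    have key : ∀ s : Finset (P1 F), s ⊆ α.support → ∃ N : ℕ, 0 < N ∧
        N • ∑ x ∈ s, α x • (Finsupp.single (spec F 0 (x.map σ)) 1 : ZP F) ∈ R (m + 2) F := by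
      intro s
      induction s using Finset.induction_on with
      | empty => exact fun _ => ⟨1, one_pos, by simp⟩
      | insert x s hx ih =>
        intro hs
        obtain ⟨N, hN, h1⟩ := ih (fun y hy => hs (Finset.mem_insert_of_mem hy))
        have h2 : ∃ M : ℕ, 0 < M ∧
            M • (Finsupp.single (spec F 0 (x.map σ)) 1 : ZP F) ∈ R (m + 2) F := by
          have hnone : ∃ M : ℕ, 0 < M ∧ M • (Finsupp.single none 1 : ZP F) ∈ R (m + 2) F := by
            refine ⟨1, one_pos, ?_⟩
            rw [one_smul, ← hR]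
            exact Submodule.subset_span (Or.inl (Or.inr rfl))
          cases x with
          | none => exact hnone
          | some f =>
            rcases (hσ1 f (hs (Finset.mem_insert_self _ _))).2 with h3 | ⟨c, h3, r, hr, hc⟩
            · rw [Option.map_some, h3]
              exact hnone
            · rw [Option.map_some, h3]
              exact tors_of_pow p m c r hr hc
        obtain ⟨M, hM, h2⟩ := h2
        refine ⟨N * M, Nat.mul_pos hN hM, ?_⟩
        rw [Finset.sum_insert hx, smul_add]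
        refine Submodule.add_mem _ ?_ ?_
        · rw [mul_smul, smul_comm M]
          exact (R (m + 2) F).smul_of_tower_mem N (Submodule.smul_mem _ _ h2)
        · rw [mul_comm, mul_smul]
          exact (R (m + 2) F).smul_of_tower_mem M h1
    exact key _ (Finset.Subset.refl _)
  obtain ⟨N, hN, h1⟩ := e3
  refine ⟨N, hN, ?_⟩
  have h2 : specZ F 0 (rmM σ α) - specZ F 1 (rmM σ α) ∈ R (m + 2) F := by
    rw [← hR]
    exact Submodule.subset_span (Or.inr ⟨_, hα σ, rfl⟩)
  rw [e2] at h2
  have h3 := Submodule.sub_mem _ h1 ((R (m + 2) F).smul_of_tower_mem N h2)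
  convert h3 using 1
  rw [smul_sub]
  abel

theorem evS_path {F : Type} [Field F] (p : ℕ) [Fact p.Prime] [CharP F p] (h : PathProp F p) :
    EvS F := by
  have hθN : ∀ (m : ℕ) (W : Type) [AddCommGroup W] [Module ℚ W] (θ : ZP F →ₗ[ℤ] W),
      (∀ r ∈ R (m + 2) F, θ r = 0) → ∀ (α : ZP F),
      (∃ N : ℕ, 0 < N ∧ N • α ∈ R (m + 2) F) → θ α = 0 := by
    rintro m W _ _ θ hθ α ⟨N, hN, h⟩
    have h1 := hθ _ h
    rw [map_nsmul, ← Nat.cast_smul_eq_nsmul ℚ] at h1
    exact (smul_eq_zero.1 h1).resolve_left (Nat.cast_ne_zero.2 hN.ne')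
  intro m
  induction m with
  | zero =>
    intro W _ _ θ hθ
    have hker : ∀ α, delta2 F α = 0 → θ α = 0 := by
      intro α hα
      refine hθN 0 W θ hθ α (path_gen p h 0 (LinearMap.ker (delta2 (RatFunc F))) rfl α
        (fun σ => ?_))
      rw [LinearMap.mem_ker, rm_delta2, hα, map_zero]
    obtain ⟨L, hL⟩ := exists_ext _ θ hker
    set f : MultilinearMap ℤ (fun _ : Fin 2 => UV F) W :=
      (L.compAlternatingMap (exteriorPower.ιMulti ℤ 2)).toMultilinearMap with hf
    refine ⟨(multilinearCurryLeftEquiv ℤ (fun _ : Fin 1 => UV F) W).toLinearMap ∘ₗ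
      f.curryLeft, ?_, ?_⟩
    · intro a
      ext c
      change (L.compAlternatingMap (exteriorPower.ιMulti ℤ 2)) (Fin.cons a (Fin.cons a c)) = 0
      apply AlternatingMap.map_eq_zero_of_eq _ _ (i := 0) (j := 1)
      · rfl
      · simp
    · rw [hL]
      apply Finsupp.lhom_ext'
      intro x
      apply LinearMap.ext_ring
      simp only [LinearMap.comp_apply, Finsupp.lsingle_apply, delta2, ev,
        Finsupp.linearCombination_single, one_smul]
      cases x with
      | none => simp
      | some x =>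
        change L (exteriorPower.ιMulti ℤ 2 ![cl (1 - x), cl x]) =
          L (exteriorPower.ιMulti ℤ 2 (Fin.cons (cl (1 - x)) (Fin.cons (cl x) (fun _ => cl x))))
        congr 2
  | succ m ih =>
    intro W _ _ θ hθ
    have hker : ∀ α, deltaS F (R (m + 2) F) α = 0 → θ α = 0 := by
      intro α hα
      refine hθN (m + 1) W θ hθ α (path_gen p h (m + 1)
        (LinearMap.ker (deltaS (RatFunc F) (R (m + 2) (RatFunc F)))) rfl α (fun σ => ?_))
      rw [LinearMap.mem_ker, rm_deltaS σ (R (m + 2) F) _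
            (fun s hs => R_map σ m s hs), hα, map_zero]
    obtain ⟨L, hL⟩ := exists_ext _ θ hker
    set θ' : ZP F →ₗ[ℤ] (UV F →ₗ[ℤ] W) :=
      (TensorProduct.curry L) ∘ₗ (R (m + 2) F).mkQ with hθ'
    have hθ'0 : ∀ r ∈ R (m + 2) F, θ' r = 0 := by
      intro r hr
      have h1 : (R (m + 2) F).mkQ r = 0 := by
        rw [Submodule.mkQ_apply, Submodule.Quotient.mk_eq_zero]
        exact hr
      have h2 : θ' r = (TensorProduct.curry L) ((R (m + 2) F).mkQ r) := rfl
      rw [h2, h1]
      exact map_zero _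
    obtain ⟨Ψ', hΨ'1, hΨ'2⟩ := ih (UV F →ₗ[ℤ] W) θ' hθ'0
    set E : MultilinearMap ℤ (fun _ : Fin m => UV F) (UV F →ₗ[ℤ] W) →ₗ[ℤ]
      MultilinearMap ℤ (fun _ : Fin (m + 1) => UV F) W :=
      (multilinearCurryRightEquiv ℤ (fun _ : Fin (m + 1) => UV F) W).symm.toLinearMap
      with hE
    refine ⟨Ψ'.compr₂ E, ?_, ?_⟩
    · intro a
      rw [LinearMap.compr₂_apply, hΨ'1, map_zero]
    · rw [hL]
      apply Finsupp.lhom_ext'
      intro x
      apply LinearMap.ext_ring
      have h1 := congrArg (fun f => f (Finsupp.single x 1)) hΨ'2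
      simp only [LinearMap.comp_apply, Finsupp.lsingle_apply, deltaS, ev,
        Finsupp.linearCombination_single, one_smul] at h1 ⊢
      cases x with
      | none => simp
      | some x =>
        have h2 := congrArg (fun f => f (cl x)) h1
        exact h2

end Pool.Agent.TH358.GP
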